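import Mathlib

/-!
# The base groups and the case of a noninjective endomorphism
-/

set_option autoImplicit false

universe u

namespace Q27.EX

open Function

section Base

variable (G : Type u) [Group G] (C : Type) [AddCommGroup C]

/-- the normal subgroup -/
abbrev NN : Type u := Multiplicative (ℤ × (G →₀ C))

/-- the action by translations -/
noncomputable def act : G →* MulAut (NN G C) where
  toFun g := AddEquiv.toMultiplicative
    (AddEquiv.prodCongr (AddEquiv.refl ℤ) (Finsupp.domCongr (Equiv.mulLeft g)))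
  map_one' := by
    apply MulEquiv.ext
    intro x
    apply Multiplicative.toAdd.injective
    show (x.toAdd.1, Finsupp.equivMapDomain (Equiv.mulLeft 1) x.toAdd.2) = x.toAdd
    apply Prod.ext
    · rfl
    · ext a
      simp only [Finsupp.equivMapDomain_apply, Equiv.mulLeft_symm_apply, inv_one, one_mul]
  map_mul' g h := by
    apply MulEquiv.ext
    intro x
    apply Multiplicative.toAdd.injective
    show (x.toAdd.1, Finsupp.equivMapDomain (Equiv.mulLeft (g * h)) x.toAdd.2) =
      (x.toAdd.1, Finsupp.equivMapDomain (Equiv.mulLeft g)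
        (Finsupp.equivMapDomain (Equiv.mulLeft h) x.toAdd.2))
    apply Prod.ext
    · rfl
    · ext a
      simp only [Finsupp.equivMapDomain_apply, Equiv.mulLeft_symm_apply, mul_inv_rev, mul_assoc]

/-- the base group -/
abbrev LL : Type u := NN G C ⋊[act G C] G

variable {G C}

/-- an element of the normal subgroup -/
noncomputable def nn (m : ℤ) (a : G →₀ C) : LL G C :=
  SemidirectProduct.inl (Multiplicative.ofAdd (m, a))

theorem nn_mul (m m' : ℤ) (a a' : G →₀ C) : nn m a * nn m' a' = nn (m + m') (a + a') := by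
  unfold nn
  rw [← map_mul, ← ofAdd_add, Prod.mk_add_mk]

theorem nn_inv (m : ℤ) (a : G →₀ C) : (nn m a)⁻¹ = nn (-m) (-a) := by
  unfold nn
  rw [← map_inv, ← ofAdd_neg, Prod.neg_mk]

theorem nn_pow (m : ℤ) (a : G →₀ C) (k : ℕ) : (nn m a) ^ k = nn (k • m) (k • a) := by
  unfold nn
  rw [← map_pow, ← ofAdd_nsmul, Prod.smul_mk]

theorem nn_inj {m m' : ℤ} {a a' : G →₀ C} (h : nn m a = nn m' a') : m = m' ∧ a = a' := by
  have h1 := SemidirectProduct.inl_injective h
  have h2 : (m, a) = (m', a') := Multiplicative.ofAdd.injective h1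
  exact ⟨congrArg Prod.fst h2, congrArg Prod.snd h2⟩

theorem nn_zero : nn (0 : ℤ) (0 : G →₀ C) = 1 := rfl

/-- translation of functions -/
noncomputable def tr (g : G) (a : G →₀ C) : G →₀ C := Finsupp.equivMapDomain (Equiv.mulLeft g) a

theorem tr_single (g x : G) (c : C) : tr g (Finsupp.single x c) = Finsupp.single (g * x) c := by
  unfold tr
  rw [Finsupp.equivMapDomain_single]
  rfl

theorem tr_add (g : G) (a b : G →₀ C) : tr g (a + b) = tr g a + tr g b :=
  (Finsupp.domCongr (Equiv.mulLeft g)).map_add a b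

theorem tr_apply (g x : G) (a : G →₀ C) : tr g a x = a (g⁻¹ * x) := by
  unfold tr
  rw [Finsupp.equivMapDomain_apply]
  simp

theorem inr_conj (g : G) (m : ℤ) (a : G →₀ C) :
    (SemidirectProduct.inr g : LL G C) * nn m a * (SemidirectProduct.inr g)⁻¹ = nn m (tr g a) := by
  unfold nn
  rw [← map_inv, ← SemidirectProduct.inl_aut]
  rfl

/-- conjugation of elements of the normal subgroup -/
theorem conj_nn (l : LL G C) (m : ℤ) (a : G →₀ C) : l * nn m a * l⁻¹ = nn m (tr l.right a) := by
  have h : l = SemidirectProduct.inl l.left * SemidirectProduct.inr l.right :=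
    (SemidirectProduct.inl_left_mul_inr_right l).symm
  have h2 : l * nn m a * l⁻¹ = SemidirectProduct.inl l.left *
      (SemidirectProduct.inr l.right * nn m a * (SemidirectProduct.inr l.right)⁻¹) *
      (SemidirectProduct.inl l.left)⁻¹ := by
    conv_lhs => rw [h]
    group
  rw [h2, inr_conj]
  unfold nn
  rw [← map_mul, ← map_inv, ← map_mul, mul_comm l.left, mul_inv_cancel_right]

/-- the projection to the integers -/
noncomputable def nu : LL G C →* Multiplicative ℤ where
  toFun l := Multiplicative.ofAdd l.left.toAdd.1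
  map_one' := rfl
  map_mul' _ _ := rfl

theorem nu_nn (m : ℤ) (a : G →₀ C) : nu (nn m a) = Multiplicative.ofAdd m := rfl

theorem nu_inr (g : G) : nu (SemidirectProduct.inr g : LL G C) = 1 := rfl

end Base

section HNN

/-- two elements of infinite order become conjugate in a larger group -/
theorem exists_conj {L : Type u} [Group L] (x y : L) (hx : ¬ IsOfFinOrder x)
    (hy : ¬ IsOfFinOrder y) :
    ∃ (H : Type u) (_ : Group H) (f : L →* H), Injective f ∧ ∃ s, s * f x * s⁻¹ = f y := by
  have hx' : Injective (zpowersHom L x) := by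
    intro a b h
    rw [zpowersHom_apply, zpowersHom_apply] at h
    exact Multiplicative.toAdd.injective (injective_zpow_iff_not_isOfFinOrder.2 hx h)
  have hy' : Injective (zpowersHom L y) := by
    intro a b h
    rw [zpowersHom_apply, zpowersHom_apply] at h
    exact Multiplicative.toAdd.injective (injective_zpow_iff_not_isOfFinOrder.2 hy h)
  let φ : (zpowersHom L x).range ≃* (zpowersHom L y).range :=
    (MonoidHom.ofInjective hx').symm.trans (MonoidHom.ofInjective hy')
  refine ⟨HNNExtension L _ _ φ, inferInstance, HNNExtension.of, HNNExtension.of_injective _,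
    HNNExtension.t, ?_⟩
  have hxe : (MonoidHom.ofInjective hx' (Multiplicative.ofAdd 1) : L) = x := by
    rw [MonoidHom.ofInjective_apply, zpowersHom_apply]
    simp
  have hye : (MonoidHom.ofInjective hy' (Multiplicative.ofAdd 1) : L) = y := by
    rw [MonoidHom.ofInjective_apply, zpowersHom_apply]
    simp
  have h1 := HNNExtension.t_mul_of (φ := φ) (MonoidHom.ofInjective hx' (Multiplicative.ofAdd 1))
  have h2 : φ (MonoidHom.ofInjective hx' (Multiplicative.ofAdd 1)) =
      MonoidHom.ofInjective hy' (Multiplicative.ofAdd 1) := by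
    show MonoidHom.ofInjective hy' ((MonoidHom.ofInjective hx').symm _) = _
    rw [MulEquiv.symm_apply_apply]
  rw [h2, hxe, hye] at h1
  rw [h1, mul_inv_cancel_right]

/-- A noninjective endomorphism which extends along all embeddings is trivial. -/
theorem trivial_of_not_injective {G : Type u} [Group G] (α : G →* G)
    (hext : ∀ (H : Type u) [Group H] (f : G →* H), Injective f →
      ∃ β : H →* H, ∀ g, β (f g) = f (α g))
    {g₁ : G} (hg₁ : g₁ ≠ 1) (h1 : α g₁ = 1) (k : G) : α k = 1 := by
  classical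
  let x₁ : LL G ℤ := nn 0 (Finsupp.single g₁ 1 - Finsupp.single 1 1)
  let d : LL G ℤ := nn 1 0
  have hx₁ : ¬ IsOfFinOrder x₁ := by
    rw [isOfFinOrder_iff_pow_eq_one]
    rintro ⟨n, hn, h⟩
    rw [nn_pow, ← nn_zero] at h
    have h2 := (nn_inj h).2
    have h3 := DFunLike.congr_fun h2 g₁
    simp [Ne.symm hg₁] at h3
    omega
  have hd : ¬ IsOfFinOrder d := by
    rw [isOfFinOrder_iff_pow_eq_one]
    rintro ⟨n, hn, h⟩
    rw [nn_pow, ← nn_zero] at h
    have h2 := (nn_inj h).1
    simp at h2
    omega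
  have hd2 : ¬ IsOfFinOrder (d * SemidirectProduct.inr k) := by
    rw [isOfFinOrder_iff_pow_eq_one]
    rintro ⟨n, hn, h⟩
    have h2 := congrArg nu h
    rw [map_pow, map_mul, nu_inr, mul_one, map_one] at h2
    have h4 : nu d = Multiplicative.ofAdd (1 : ℤ) := rfl
    rw [h4, ← ofAdd_nsmul] at h2
    have h3 := congrArg Multiplicative.toAdd h2
    simp at h3
    omega
  obtain ⟨H₁, _, f₁, hf₁, s₁, hs₁⟩ := exists_conj x₁ d hx₁ hd
  have hfin : ∀ x : LL G ℤ, ¬ IsOfFinOrder x → ¬ IsOfFinOrder (f₁ x) := by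
    intro x hx h
    exact hx (hf₁.isOfFinOrder_iff.1 h)
  obtain ⟨H₂, _, f₂, hf₂, s₂, hs₂⟩ := exists_conj (f₁ (d * SemidirectProduct.inr k)) (f₁ d)
    (hfin _ hd2) (hfin _ hd)
  obtain ⟨β, hβ⟩ := hext H₂ ((f₂.comp f₁).comp SemidirectProduct.inr)
    ((hf₂.comp hf₁).comp SemidirectProduct.inr_injective)
  have hβ' : ∀ g, β (f₂ (f₁ (SemidirectProduct.inr g))) = f₂ (f₁ (SemidirectProduct.inr (α g))) :=
    hβ
  have e1 : x₁ = SemidirectProduct.inr g₁ * nn 0 (Finsupp.single 1 1) *
      (SemidirectProduct.inr g₁)⁻¹ * (nn 0 (Finsupp.single 1 1))⁻¹ := by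
    rw [inr_conj, tr_single, nn_inv, nn_mul, mul_one, neg_zero, add_zero]
    show nn 0 (Finsupp.single g₁ 1 - Finsupp.single 1 1) = _
    rw [sub_eq_add_neg]
  have e2 : β (f₂ (f₁ x₁)) = 1 := by
    rw [e1]
    simp only [map_mul, map_inv, hβ', h1, map_one]
    group
  have e3 : β (f₂ (f₁ d)) = 1 := by
    rw [← hs₁, map_mul, map_mul, map_mul, map_mul, e2, mul_one, ← map_mul, ← map_mul]
    simp
  have e4 : β (f₂ (f₁ (d * SemidirectProduct.inr k))) = 1 := by
    have h2 := congrArg β hs₂
    rw [map_mul, map_mul, e3, map_inv] at h2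
    have h3 : β (f₂ (f₁ (d * SemidirectProduct.inr k))) = (β s₂)⁻¹ * 1 * β s₂ := by
      rw [← h2]; group
    rw [h3]
    group
  rw [map_mul, map_mul, map_mul, e3, one_mul, hβ'] at e4
  have h5 := hf₂ (e4.trans (map_one f₂).symm)
  have h6 := hf₁ (h5.trans (map_one f₁).symm)
  exact SemidirectProduct.inr_injective (h6.trans (map_one _).symm)

end HNN

end Q27.EX
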