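import Pool.Agent.Q27.EX.SL2

/-!
# Large simple groups with few homomorphisms
-/

set_option autoImplicit false

universe u

namespace Q27.EX

open Matrix

/-- the torus element of `(m, j)` over the complex numbers -/
noncomputable def zz : ℂˣ := Units.mk0 (Complex.exp (2 * Real.pi * Complex.I / 289)) (Complex.exp_ne_zero _)

theorem zz_prim : IsPrimitiveRoot zz 289 := by
  have h := Complex.isPrimitiveRoot_exp 289 (by norm_num)
  rw [← IsPrimitiveRoot.coe_units_iff]
  simpa [zz] using h

noncomputable def c0 : Multiplicative (ℤ × ZMod 289) →* ℂˣ where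
  toFun x := (Units.mk0 (2 : ℂ) two_ne_zero) ^ x.toAdd.1 * zz ^ x.toAdd.2.val
  map_one' := by simp
  map_mul' x y := by
    have h : zz ^ (x.toAdd.2 + y.toAdd.2).val = zz ^ x.toAdd.2.val * zz ^ y.toAdd.2.val := by
      rw [← pow_add, ZMod.val_add]
      have := zz_prim.pow_eq_one
      conv_rhs => rw [← Nat.mod_add_div (x.toAdd.2.val + y.toAdd.2.val) 289, pow_add, pow_mul,
        this, one_pow, mul_one]
    show (Units.mk0 (2 : ℂ) two_ne_zero) ^ (x.toAdd.1 + y.toAdd.1) *
      zz ^ (x.toAdd.2 + y.toAdd.2).val = _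
    rw [h, _root_.zpow_add]
    exact mul_mul_mul_comm _ _ _ _

theorem c0_sq {x : Multiplicative (ℤ × ZMod 289)} (h : (c0 x) ^ 2 = 1) : x = 1 := by
  have hz : ‖((zz : ℂˣ) : ℂ)‖ = 1 := by
    have h1 := zz_prim.pow_eq_one
    have h2 : ((zz : ℂˣ) : ℂ) ^ 289 = 1 := by
      rw [← Units.val_pow_eq_pow_val, h1, Units.val_one]
    exact Complex.norm_eq_one_of_pow_eq_one h2 (by norm_num)
  have h1 : c0 x = (Units.mk0 (2 : ℂ) two_ne_zero) ^ x.toAdd.1 * zz ^ x.toAdd.2.val := rfl
  have h2 : ‖((c0 x : ℂˣ) : ℂ)‖ ^ 2 = 1 := by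
    rw [← norm_pow, ← Units.val_pow_eq_pow_val, h, Units.val_one, norm_one]
  have h3 : ‖((c0 x : ℂˣ) : ℂ)‖ = (2 : ℝ) ^ x.toAdd.1 := by
    rw [h1, Units.val_mul, norm_mul, Units.val_pow_eq_pow_val, norm_pow, hz, one_pow, mul_one,
      Units.val_zpow_eq_zpow_val, norm_zpow]
    simp
  rw [h3, ← zpow_natCast, ← _root_.zpow_mul] at h2
  have h4 : x.toAdd.1 = 0 := by
    have h5 : (2 : ℝ) ^ (x.toAdd.1 * ((2 : ℕ) : ℤ)) = (2 : ℝ) ^ (0 : ℤ) := by rw [h2, zpow_zero]
    have h6 := zpow_right_injective₀ (by norm_num : (0 : ℝ) < 2) (by norm_num) h5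
    simpa using h6
  rw [h1, h4, zpow_zero, one_mul, ← pow_mul] at h
  have h5 := zz_prim.dvd_of_pow_eq_one _ h
  have h6 : 289 ∣ x.toAdd.2.val := by
    refine Nat.Coprime.dvd_of_dvd_mul_right (by norm_num) h5
  have h7 : x.toAdd.2 = 0 := by
    have h8 := ZMod.val_lt x.toAdd.2
    rw [← ZMod.val_eq_zero]
    exact Nat.eq_zero_of_dvd_of_lt h6 h8
  have h8 : x.toAdd = 0 := Prod.ext h4 h7
  exact h8

theorem exists_gadget (G : Type u) : ∃ (F : Type u) (_ : Field F), Uncountable F ∧
    Cardinal.mk G < Cardinal.mk F ∧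
    IsSimpleGroup (ProjectiveSpecialLinearGroup (Fin 2) F) ∧
    commutator (ProjectiveSpecialLinearGroup (Fin 2) F) = ⊤ ∧
    ∃ c : Multiplicative (ℤ × ZMod 289) →* ProjectiveSpecialLinearGroup (Fin 2) F,
      Function.Injective c := by
  let F := FractionRing (MvPolynomial (Set G) ℂ)
  have hinj : Function.Injective (algebraMap (MvPolynomial (Set G) ℂ) F) :=
    IsFractionRing.injective _ _
  have hinj2 : Function.Injective (algebraMap ℂ F) := (algebraMap ℂ F).injective
  have hchar : CharZero F := charZero_of_injective_algebraMap hinj2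
  have ha : ∃ a : F, a ≠ 0 ∧ a ^ 2 ≠ 1 := ⟨2, two_ne_zero, by norm_num⟩
  refine ⟨F, inferInstance, ?_, ?_, ProjectiveSpecialLinearGroup.rank_two_simple' ha,
    SL2Simple.PSL_commutator_eq_top ha, ?_⟩
  · have : Uncountable ℂ := by
      rw [← Cardinal.aleph0_lt_mk_iff, Cardinal.mk_complex]
      exact Cardinal.aleph0_lt_continuum
    exact hinj2.uncountable
  · refine lt_of_lt_of_le (Cardinal.cantor _) ?_
    rw [← Cardinal.mk_set]
    refine Cardinal.mk_le_of_injective (f := fun s : Set G =>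
      algebraMap (MvPolynomial (Set G) ℂ) F (MvPolynomial.X s)) ?_
    exact hinj.comp (MvPolynomial.X_injective)
  · refine ⟨(pr F).comp (tor.comp ((Units.map (algebraMap ℂ F).toMonoidHom).comp c0)), ?_⟩
    rw [injective_iff_map_eq_one]
    intro x hx
    have h1 := tor_center (pr_eq_one hx)
    apply c0_sq
    have h2 : Units.map (algebraMap ℂ F).toMonoidHom (c0 x ^ 2) = 1 := by
      rw [map_pow]
      exact h1
    have h3 : Function.Injective (Units.map (algebraMap ℂ F).toMonoidHom) :=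
      Units.map_injective hinj2
    exact h3 (by rw [h2, map_one])

theorem card_le_psl (F : Type u) [Field F] :
    Cardinal.mk F ≤ Cardinal.mk (ProjectiveSpecialLinearGroup (Fin 2) F) :=
  Cardinal.mk_le_of_injective (f := fun x : F => pr F (up (Multiplicative.ofAdd x)))
    (fun _ _ h => pr_up_injective (F := F) h)

/-- a large perfect simple group has no nontrivial homomorphism to an abelian-by-small group -/
theorem hom_trivial {M L G : Type u} [Group M] [Group L] [Group G] (hs : IsSimpleGroup M)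
    (hp : commutator M = ⊤) (hc : Cardinal.mk G < Cardinal.mk M) (π : L →* G)
    (hπ : ∀ x y, π x = 1 → π y = 1 → x * y = y * x) (θ : M →* L) (m : M) : θ m = 1 := by
  have h1 : (π.comp θ).ker = ⊤ := by
    rcases IsSimpleGroup.eq_bot_or_eq_top_of_normal (π.comp θ).ker inferInstance with h | h
    · exfalso
      rw [MonoidHom.ker_eq_bot_iff] at h
      exact absurd (Cardinal.mk_le_of_injective h) (not_le.2 hc)
    · exact h
  have h2 : ∀ m, π (θ m) = 1 := by
    intro m
    have : m ∈ (π.comp θ).ker := by rw [h1]; trivial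
    exact this
  have h3 : commutator M ≤ θ.ker := by
    rw [commutator_eq_closure, Subgroup.closure_le]
    rintro _ ⟨a, b, rfl⟩
    rw [SetLike.mem_coe, MonoidHom.mem_ker, commutatorElement_def, map_mul, map_mul, map_mul,
      map_inv, map_inv, hπ _ _ (h2 a) (h2 b)]
    group
  rw [hp] at h3
  exact h3 trivial

end Q27.EX
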