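import Mathlib

/-!
# A ternary relation which is rigid with respect to injective maps
-/

set_option autoImplicit false

universe u

namespace Q27.EX

open Function

section Order

variable {W : Type u} [LinearOrder W] [WellFoundedLT W] [OrderBot W] [OrderTop W]

/-- the elements of countable cofinality, with a ladder -/
def Lim (z : W) : Prop := ∃ s : ℕ → W, StrictMono s ∧ s 0 = ⊥ ∧ IsLUB (Set.range s) z

open Classical in
/-- the ladder -/
noncomputable def ladder (z : W) : ℕ → W := if h : Lim z then h.choose else fun _ => ⊥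

omit [WellFoundedLT W] [OrderTop W] in
theorem ladder_spec {z : W} (h : Lim z) :
    StrictMono (ladder z) ∧ ladder z 0 = ⊥ ∧ IsLUB (Set.range (ladder z)) z := by
  unfold ladder
  rw [dif_pos h]
  exact h.choose_spec

/-- the relation -/
def RR (x y z : W) : Prop :=
  (x < y ∧ z = y) ∨ (x = ⊥ ∧ y = ⊥ ∧ z = ⊥) ∨
    (Lim z ∧ ∃ n, x = ladder z n ∧ y = ladder z (n + 1))

omit [WellFoundedLT W] [OrderTop W] in
theorem ladder_lt {z : W} (h : Lim z) (n : ℕ) : ladder z n < z := by
  obtain ⟨h1, _, h3⟩ := ladder_spec h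
  exact lt_of_lt_of_le (h1 (Nat.lt_succ_self n)) (h3.1 ⟨n + 1, rfl⟩)

omit [OrderBot W] in
theorem exists_lub (S : Set W) : ∃ d, IsLUB S d := by
  have hne : (upperBounds S).Nonempty := ⟨⊤, fun x _ => le_top⟩
  refine ⟨WellFounded.min wellFounded_lt _ hne, WellFounded.min_mem _ _ hne, fun b hb => ?_⟩
  exact not_lt.1 (WellFounded.not_lt_min wellFounded_lt _ hb)

theorem RR_rigid (f : W → W) (hinj : Injective f)
    (hf : ∀ x y z, RR x y z → RR (f x) (f y) (f z)) (x : W) : f x = x := by
  have hmono : StrictMono f := by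
    intro x y hxy
    rcases hf x y y (Or.inl ⟨hxy, rfl⟩) with h | h | h
    · exact h.1
    · exact absurd (hinj (h.1.trans h.2.1.symm)) hxy.ne
    · obtain ⟨h1, n, h2, h3⟩ := h
      exact absurd h3 (ladder_lt h1 _).ne'
  have hbot : f ⊥ = ⊥ := by
    rcases hf ⊥ ⊥ ⊥ (Or.inr (Or.inl ⟨rfl, rfl, rfl⟩)) with h | h | h
    · exact absurd h.1 (lt_irrefl _)
    · exact h.1
    · obtain ⟨h1, n, h2, h3⟩ := h
      have := (ladder_spec h1).1 (Nat.lt_succ_self n)
      rw [Nat.succ_eq_add_one, ← h2, ← h3] at this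
      exact absurd this (lt_irrefl _)
  have hlad : ∀ d, Lim d → Lim (f d) ∧ ∀ n, f (ladder d n) = ladder (f d) n := by
    intro d hd
    have h1 : ∀ n, Lim (f d) ∧ ∃ m, f (ladder d n) = ladder (f d) m ∧
        f (ladder d (n + 1)) = ladder (f d) (m + 1) := by
      intro n
      have hlt := (ladder_spec hd).1 (Nat.lt_succ_self n)
      rcases hf _ _ d (Or.inr (Or.inr ⟨hd, n, rfl, rfl⟩)) with h | h | h
      · exact absurd (hinj h.2) (ladder_lt hd _).ne'
      · exact absurd (hinj (h.1.trans h.2.1.symm)) hlt.ne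
      · obtain ⟨h1, m, h2, h3⟩ := h
        exact ⟨h1, m, h2, h3⟩
    refine ⟨(h1 0).1, fun n => ?_⟩
    induction n with
    | zero => rw [(ladder_spec hd).2.1, hbot, (ladder_spec (h1 0).1).2.1]
    | succ n ih =>
      obtain ⟨h2, m, h3, h4⟩ := h1 n
      rw [ih] at h3
      have h5 := (ladder_spec h2).1.injective h3
      rw [h4, h5]
  by_contra hne
  have hex : {x | f x ≠ x}.Nonempty := ⟨x, hne⟩
  obtain ⟨x₀, hx₀⟩ : ∃ x₀, f x₀ ≠ x₀ := ⟨x, hne⟩
  have hlt : x₀ < f x₀ := lt_of_le_of_ne hmono.le_apply (Ne.symm hx₀)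
  let s : ℕ → W := fun n => f^[n] x₀
  have hs1 : ∀ n, s (n + 1) = f (s n) := fun n => iterate_succ_apply' f n x₀
  have hs : StrictMono s := by
    apply strictMono_nat_of_lt_succ
    intro n
    induction n with
    | zero => exact hlt
    | succ n ih =>
      rw [hs1 n, hs1 (n + 1)]
      exact hmono ih
  have hx₀bot : ⊥ < x₀ := by
    rw [bot_lt_iff_ne_bot]
    intro h
    rw [h] at hx₀
    exact hx₀ hbot
  obtain ⟨d, hd⟩ := exists_lub (Set.range s)
  have hsd : ∀ n, s n < d := fun n => lt_of_lt_of_le (hs (Nat.lt_succ_self n)) (hd.1 ⟨n + 1, rfl⟩)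
  have hlim : Lim d := by
    refine ⟨fun n => if n = 0 then ⊥ else s (n - 1), ?_, by simp, ?_, ?_⟩
    · apply strictMono_nat_of_lt_succ
      intro n
      rcases n with _ | n
      · show ⊥ < s 0
        exact hx₀bot
      · exact hs (Nat.lt_succ_self n)
    · rintro _ ⟨n, rfl⟩
      rcases n with _ | n
      · simp
      · simpa using (hsd n).le
    · intro b hb
      apply hd.2
      rintro _ ⟨n, rfl⟩
      have := hb ⟨n + 1, rfl⟩
      simpa using this
  obtain ⟨h1, h2⟩ := hlad d hlim
  have hbelow : ∀ w, w < d → ∃ k, w < s k := by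
    intro w hw
    by_contra hcon
    push Not at hcon
    have : d ≤ w := hd.2 (by rintro _ ⟨n, rfl⟩; exact hcon n)
    exact absurd hw (not_lt.2 this)
  rcases eq_or_ne (f d) d with h3 | h3
  · -- the ladder is fixed
    obtain ⟨n, hn⟩ : ∃ n, x₀ < ladder d n := by
      by_contra hcon
      push Not at hcon
      have : d ≤ x₀ := (ladder_spec hlim).2.2.2 (by rintro _ ⟨n, rfl⟩; exact hcon n)
      exact absurd (hsd 0) (not_lt.2 this)
    have h4 := h2 n
    rw [h3] at h4
    have hex : ∃ k, ladder d n < s k := hbelow _ (ladder_lt hlim n)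
    classical
    have h5 := Nat.find_spec hex
    rcases hk : Nat.find hex with _ | k
    · rw [hk] at h5
      exact absurd hn (not_lt.2 (le_of_lt h5))
    · rw [hk, hs1] at h5
      have h6 : s k ≤ ladder d n := not_lt.1 (Nat.find_min hex (by omega))
      have h7 := hmono.monotone h6
      rw [h4] at h7
      exact absurd h5 (not_lt.2 h7)
  · have h4 : d < f d := lt_of_le_of_ne hmono.le_apply (Ne.symm h3)
    obtain ⟨n, hn⟩ : ∃ n, d < ladder (f d) n := by
      by_contra hcon
      push Not at hcon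
      have : f d ≤ d := (ladder_spec h1).2.2.2 (by rintro _ ⟨n, rfl⟩; exact hcon n)
      exact absurd h4 (not_lt.2 this)
    rw [← h2 n] at hn
    obtain ⟨k, hk⟩ := hbelow _ (ladder_lt hlim n)
    have h5 := hmono hk
    rw [← hs1] at h5
    exact absurd (hsd (k + 1)) (not_lt.2 (le_of_lt (hn.trans h5)))

end Order

/-- On every set with at least two elements there is a ternary relation such that the only
injective map preserving it and fixing a given point is the identity. -/
theorem exists_rigid (G : Type u) [Nontrivial G] (o : G) :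
    ∃ R : G → G → G → Prop, (∀ x y z, R x y z → ¬ (x = o ∧ y = o ∧ z = o)) ∧
      ∀ f : G → G, Injective f → (∀ x y z, R x y z → R (f x) (f y) (f z)) → ∀ x, f x = x := by
  classical
  let X := {x : G // x ≠ o}
  obtain ⟨a, ha⟩ := exists_ne o
  let r : LinearOrder X := linearOrderOfSTO (WellOrderingRel (α := X))
  have hwf : WellFoundedLT X := ⟨WellOrderingRel.isWellOrder.wf⟩
  have hne : Nonempty X := ⟨⟨a, ha⟩⟩
  let W := WithTop X
  have hbotX : ∃ b : X, ∀ x, b ≤ x := ⟨WellFounded.min hwf.wf Set.univ Set.univ_nonempty,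
    fun x => not_lt.1 (WellFounded.not_lt_min hwf.wf _ (Set.mem_univ x))⟩
  obtain ⟨b, hb⟩ := hbotX
  let _ : OrderBot X := { bot := b, bot_le := hb }
  let e : W ≃ G := Equiv.optionSubtypeNe o
  have heo : e ⊤ = o := Equiv.optionSubtypeNe_none o
  refine ⟨fun x y z => RR (e.symm x) (e.symm y) (e.symm z), ?_, ?_⟩
  · rintro x y z h ⟨hx, hy, hz⟩
    have htop : e.symm o = ⊤ := by rw [Equiv.symm_apply_eq]; exact heo.symm
    rw [hx, hy, hz, htop] at h
    rcases h with h | h | h
    · exact absurd h.1 (lt_irrefl _)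
    · have : (⊤ : W) = ⊥ := h.1
      exact absurd this (WithTop.coe_ne_top (a := (⊥ : X))).symm
    · obtain ⟨h1, n, h2, h3⟩ := h
      have := ladder_lt h1 n
      rw [← h2] at this
      exact absurd this (lt_irrefl _)
  · intro f hf hR x
    have := RR_rigid (fun w => e.symm (f (e w)))
      (e.symm.injective.comp (hf.comp e.injective)) (by
        intro x y z h
        apply hR
        simpa using h) (e.symm x)
    simp only [Equiv.apply_symm_apply] at this
    exact e.symm.injective this

end Q27.EX
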