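import Pool.Agent.Q27.EX.Star
import Pool.Agent.Q27.EX.Gadget
import Pool.Agent.Q27.EX.Base
import Pool.Agent.Q27.EX.Rigid

/-!
# Extendable injective endomorphisms are inner
-/

set_option autoImplicit false

universe u

namespace Q27.EX

open Function

section Arith

theorem ar1 {c : ZMod 289} (hc : 17 * c ≠ 0) {s : ℕ} (h0 : 0 < s) (hs : s < 17) :
    17 * (s : ZMod 289) * c ≠ 0 := by
  intro h
  have e : c = ((c.val : ℕ) : ZMod 289) := (ZMod.natCast_zmod_val c).symm
  rw [e] at h hc
  have h1 : ((17 * s * c.val : ℕ) : ZMod 289) = 0 := by push_cast; exact h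
  rw [ZMod.natCast_eq_zero_iff] at h1
  have h2 : 17 ∣ s * c.val := by
    have : 17 * 17 ∣ 17 * (s * c.val) := by
      have e2 : 17 * (s * c.val) = 17 * s * c.val := by ring
      rw [e2]
      exact h1
    exact Nat.dvd_of_mul_dvd_mul_left (by norm_num) this
  rcases (Nat.Prime.dvd_mul (by norm_num : Nat.Prime 17)).1 h2 with h3 | h3
  · exact absurd (Nat.le_of_dvd h0 h3) (by omega)
  · apply hc
    obtain ⟨k, hk⟩ := h3
    rw [hk]
    have : ((17 * (17 * k) : ℕ) : ZMod 289) = 0 := by
      rw [ZMod.natCast_eq_zero_iff]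
      exact ⟨k, by ring⟩
    push_cast at this
    push_cast
    exact this

theorem ar3 {c : ZMod 289} (hc : 17 * c ≠ 0) {s s' : ℕ} (hs : s < 17) (hs' : s' < 17)
    (h : 17 * (s : ZMod 289) * c = 17 * (s' : ZMod 289) * c) : s = s' := by
  rcases lt_trichotomy s s' with h1 | h1 | h1
  · exfalso
    have h2 := ar1 hc (s := s' - s) (by omega) (by omega)
    apply h2
    rw [Nat.cast_sub h1.le]
    linear_combination -h
  · exact h1
  · exfalso
    have h2 := ar1 hc (s := s - s') (by omega) (by omega)
    apply h2
    rw [Nat.cast_sub h1.le]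
    linear_combination h

end Arith

section Functions

variable {G : Type u} [Group G]

/-- the augmentation -/
noncomputable def aug : (G →₀ ZMod 289) →+ ZMod 289 :=
  Finsupp.liftAddHom (fun _ => AddMonoidHom.id _)

omit [Group G] in
theorem aug_single (x : G) (c : ZMod 289) : aug (Finsupp.single x c) = c := by
  unfold aug
  simp

theorem aug_tr (g : G) (a : G →₀ ZMod 289) : aug (tr g a) = aug a := by
  induction a using Finsupp.induction_linear with
  | zero =>
    have : tr g (0 : G →₀ ZMod 289) = 0 := by
      unfold tr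
      exact Finsupp.equivMapDomain_zero
    rw [this]
  | add a b ha hb => rw [tr_add, map_add, map_add, ha, hb]
  | single x c => rw [tr_single, aug_single, aug_single]

/-- functions with four weighted points -/
noncomputable def U4 (p q r s : G) (c : ZMod 289) : G →₀ ZMod 289 :=
  Finsupp.single p (17 * c) + Finsupp.single q (34 * c) + Finsupp.single r (68 * c) +
    Finsupp.single s (136 * c)

omit [Group G] in
theorem aug_U4 (p q r s : G) (c : ZMod 289) : aug (U4 p q r s c) = 255 * c := by
  unfold U4
  rw [map_add, map_add, map_add, aug_single, aug_single, aug_single, aug_single]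
  ring

theorem tr_U4 (g p q r s : G) (c : ZMod 289) :
    tr g (U4 p q r s c) = U4 (g * p) (g * q) (g * r) (g * s) c := by
  unfold U4
  rw [tr_add, tr_add, tr_add, tr_single, tr_single, tr_single, tr_single]

open Classical in
/-- the number of a point -/
noncomputable def cnt (p q r s w : G) : ℕ :=
  (if p = w then 1 else 0) + (if q = w then 2 else 0) + (if r = w then 4 else 0) +
    (if s = w then 8 else 0)

omit [Group G] in
theorem cnt_lt (p q r s w : G) : cnt p q r s w < 17 := by
  unfold cnt
  split_ifs <;> omega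

omit [Group G] in
theorem U4_apply (p q r s : G) (c : ZMod 289) (w : G) :
    U4 p q r s c w = 17 * (cnt p q r s w : ZMod 289) * c := by
  classical
  unfold U4 cnt
  rw [Finsupp.add_apply, Finsupp.add_apply, Finsupp.add_apply, Finsupp.single_apply,
    Finsupp.single_apply, Finsupp.single_apply, Finsupp.single_apply]
  push_cast
  split_ifs <;> ring

omit [Group G] in
theorem cnt_eq {p q r s p' q' r' s' : G} (h : ∀ w, cnt p q r s w = cnt p' q' r' s' w) :
    p = p' ∧ q = q' ∧ r = r' ∧ s = s' := by
  classical
  have key : ∀ w, (p = w ↔ p' = w) ∧ (q = w ↔ q' = w) ∧ (r = w ↔ r' = w) ∧ (s = w ↔ s' = w) := by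
    intro w
    have := h w
    unfold cnt at this
    by_cases h1 : p = w <;> by_cases h2 : q = w <;> by_cases h3 : r = w <;>
      by_cases h4 : s = w <;> by_cases h5 : p' = w <;> by_cases h6 : q' = w <;>
      by_cases h7 : r' = w <;> by_cases h8 : s' = w <;>
      simp only [h1, h2, h3, h4, h5, h6, h7, h8, if_true, if_false] at this ⊢ <;>
      first | omega | simp
  exact ⟨((key p).1.1 rfl).symm, ((key q).2.1.1 rfl).symm, ((key r).2.2.1.1 rfl).symm,
    ((key s).2.2.2.1 rfl).symm⟩

omit [Group G] in
theorem cnt_pos {p q r s w : G} (h : p = w ∨ q = w ∨ r = w ∨ s = w) : 0 < cnt p q r s w := by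
  unfold cnt
  rcases h with h | h | h | h <;> simp [h]

omit [Group G] in
theorem U4_ne {p q r s w : G} {c : ZMod 289} (hc : 17 * c ≠ 0)
    (h : p = w ∨ q = w ∨ r = w ∨ s = w) : U4 p q r s c w ≠ 0 := by
  rw [U4_apply]
  exact ar1 hc (cnt_pos h) (cnt_lt _ _ _ _ _)

omit [Group G] in
theorem U4_inj {p q r s p' q' r' s' : G} {c k : ZMod 289} (hc : 17 * c ≠ 0)
    (h : U4 p q r s c = U4 p' q' r' s' k) : p = p' ∧ q = q' ∧ r = r' ∧ s = s' := by
  have h1 := congrArg aug h
  rw [aug_U4, aug_U4] at h1
  have h2 : 17 * c = 17 * k := by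
    by_contra hne
    have h3 : 17 * (c - k) ≠ 0 := by
      intro h3
      apply hne
      linear_combination h3
    have h4 := ar1 h3 (s := 15) (by norm_num) (by norm_num)
    apply h4
    push_cast
    linear_combination h1
  apply cnt_eq
  intro w
  have h3 := DFunLike.congr_fun h w
  rw [U4_apply, U4_apply] at h3
  apply ar3 hc (cnt_lt _ _ _ _ _) (cnt_lt _ _ _ _ _)
  rw [h3]
  linear_combination -(cnt p' q' r' s' w : ZMod 289) * h2

end Functions

end Q27.EX
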