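import Pool.Agent.Q27.EX.Inner

/-!
# Extendable injective endomorphisms are inner
-/

set_option autoImplicit false

universe u

namespace Q27.EX

open Function

section Data

variable {G : Type u} [Group G]

/-- the map of the base group to the torus -/
noncomputable def th0 : LL G (ZMod 289) →* Multiplicative (ℤ × ZMod 289) where
  toFun l := Multiplicative.ofAdd (l.left.toAdd.1, aug l.left.toAdd.2)
  map_one' := by
    show Multiplicative.ofAdd ((0 : ℤ), aug (0 : G →₀ ZMod 289)) = 1
    rw [map_zero]
    rfl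
  map_mul' a b := by
    show Multiplicative.ofAdd (a.left.toAdd.1 + b.left.toAdd.1,
      aug (a.left.toAdd.2 + tr a.right b.left.toAdd.2)) = _
    rw [map_add, aug_tr]
    rfl

theorem th0_nn (m : ℤ) (a : G →₀ ZMod 289) : th0 (nn m a) = Multiplicative.ofAdd (m, aug a) := rfl

theorem th0_inr (g : G) : th0 (SemidirectProduct.inr g : LL G (ZMod 289)) = 1 := by
  show Multiplicative.ofAdd ((0 : ℤ), aug (0 : G →₀ ZMod 289)) = 1
  rw [map_zero]
  rfl

/-- index of the edge groups -/
abbrev Idx (R : G → G → G → Prop) : Type u := Option (Option {t : G × G × G // R t.1 t.2.1 t.2.2})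

/-- the group `E₀` -/
noncomputable def E0 : Subgroup (LL G (ZMod 289)) where
  carrier := {l | ∃ m c, l = nn m (Finsupp.single 1 c)}
  one_mem' := ⟨0, 0, by rw [Finsupp.single_zero]; rfl⟩
  mul_mem' := by
    rintro _ _ ⟨m, c, rfl⟩ ⟨m', c', rfl⟩
    exact ⟨m + m', c + c', by rw [nn_mul, Finsupp.single_add]⟩
  inv_mem' := by
    rintro _ ⟨m, c, rfl⟩
    exact ⟨-m, -c, by rw [nn_inv, Finsupp.single_neg]⟩

/-- the edge groups -/
noncomputable def EE (g₀ : G) (R : G → G → G → Prop) : Idx R → Subgroup (LL G (ZMod 289))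
  | none => E0
  | some none => Subgroup.zpowers (nn 1 0 * SemidirectProduct.inr g₀)
  | some (some t) => Subgroup.zpowers (nn 0 (U4 1 t.1.1 t.1.2.1 t.1.2.2 1))

omit [Group G] in
theorem smul_U4 (p q r s : G) (k : ℕ) (c : ZMod 289) : k • U4 p q r s c = U4 p q r s (k * c) := by
  unfold U4
  simp only [smul_add, Finsupp.smul_single, nsmul_eq_mul]
  congr 1
  · congr 1
    · congr 1
      · congr 1
        ring
      · congr 1
        ring
    · congr 1
      ring
  · congr 1
    ring

/-- elements of the third kind of edge groups -/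
theorem mem_E2 {p q r s : G} {e : LL G (ZMod 289)}
    (he : e ∈ Subgroup.zpowers (nn 0 (U4 p q r s 1) : LL G (ZMod 289))) :
    ∃ k : ZMod 289, e = nn 0 (U4 p q r s k) := by
  obtain ⟨n, rfl⟩ := Subgroup.mem_zpowers_iff.1 he
  induction n using Int.induction_on with
  | zero => exact ⟨0, by unfold U4; simp [nn_zero]⟩
  | succ n ih =>
    obtain ⟨k, hk⟩ := ih (Subgroup.zpow_mem_zpowers _ _)
    refine ⟨k + 1, ?_⟩
    rw [zpow_add_one, hk, nn_mul]
    congr 1
    unfold U4
    simp only [mul_add, Finsupp.single_add]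
    abel
  | pred n ih =>
    obtain ⟨k, hk⟩ := ih (Subgroup.zpow_mem_zpowers _ _)
    refine ⟨k - 1, ?_⟩
    rw [zpow_sub_one, hk, nn_inv, nn_mul, neg_zero, add_zero]
    congr 1
    unfold U4
    simp only [mul_sub, Finsupp.single_sub]
    abel

/-- elements of the second kind of edge groups -/
theorem mem_E1 {g₀ : G} {e : LL G (ZMod 289)}
    (he : e ∈ Subgroup.zpowers (nn 1 0 * SemidirectProduct.inr g₀ : LL G (ZMod 289)))
    (h : nu e = 1) : e = 1 := by
  obtain ⟨n, rfl⟩ := Subgroup.mem_zpowers_iff.1 he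
  rw [map_zpow, map_mul, nu_nn, nu_inr, mul_one, ← ofAdd_zsmul] at h
  have h2 := congrArg Multiplicative.toAdd h
  have h3 : n = 0 := by simpa using h2
  rw [h3, zpow_zero]

theorem mem_E0 {e : LL G (ZMod 289)} (he : e ∈ (E0 : Subgroup (LL G (ZMod 289)))) :
    ∃ m c, e = nn m (Finsupp.single 1 c) := he

theorem edge_inj {M : Type u} [Group M] (c : Multiplicative (ℤ × ZMod 289) →* M)
    (hc : Injective c) (g₀ : G) (R : G → G → G → Prop) (i : Idx R) (e : LL G (ZMod 289))
    (he : e ∈ EE g₀ R i) (h : (c.comp th0) e = 1) : e = 1 := by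
  have h1 : th0 e = 1 := hc (h.trans (map_one c).symm)
  rcases i with _ | _ | t
  · obtain ⟨m, a, rfl⟩ := mem_E0 he
    rw [th0_nn, aug_single] at h1
    have h2 : (m, a) = (0, 0) := Multiplicative.ofAdd.injective h1
    rw [Prod.mk.injEq] at h2
    rw [h2.1, h2.2, Finsupp.single_zero]
    rfl
  · apply mem_E1 he
    exact congrArg (fun x => Multiplicative.ofAdd (Multiplicative.toAdd x).1) h1
  · obtain ⟨k, rfl⟩ := mem_E2 he
    rw [th0_nn, aug_U4] at h1
    have h2 : ((0 : ℤ), 255 * k) = (0, 0) := Multiplicative.ofAdd.injective h1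
    have h3 : 255 * k = 0 := congrArg Prod.snd h2
    have h4 : 17 * k = 0 := by
      by_contra hne
      apply ar1 hne (s := 15) (by norm_num) (by norm_num)
      push_cast
      linear_combination h3
    have h5 : U4 1 t.1.1 t.1.2.1 t.1.2.2 k = 0 := by
      ext w
      rw [U4_apply, Finsupp.zero_apply]
      linear_combination (cnt 1 t.1.1 t.1.2.1 t.1.2.2 w : ZMod 289) * h4
    rw [h5]
    rfl

theorem edge_countable (g₀ : G) (R : G → G → G → Prop) (i : Idx R) : Countable (EE g₀ R i) := by
  rcases i with _ | _ | t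
  · have : Surjective (fun x : ℤ × ZMod 289 =>
        (⟨nn x.1 (Finsupp.single 1 x.2), x.1, x.2, rfl⟩ : (E0 : Subgroup (LL G (ZMod 289))))) := by
      rintro ⟨_, m, c, rfl⟩
      exact ⟨(m, c), rfl⟩
    exact this.countable
  · show Countable (Subgroup.zpowers _)
    infer_instance
  · show Countable (Subgroup.zpowers _)
    infer_instance

/-- conjugates of edge elements in `G` are trivial -/
theorem edge_G (g₀ : G) (R : G → G → G → Prop) (i : Idx R) {e l : LL G (ZMod 289)} {g : G}
    (he : e ∈ EE g₀ R i) (h : SemidirectProduct.inr g = l * e * l⁻¹) : g = 1 := by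
  have key : ∀ m a, e = nn m a → g = 1 := by
    rintro m a rfl
    rw [conj_nn] at h
    exact congrArg SemidirectProduct.right h
  rcases i with _ | _ | t
  · obtain ⟨m, c, hm⟩ := mem_E0 he
    exact key _ _ hm
  · have h1 := congrArg nu h
    rw [nu_inr, map_mul, map_mul, map_inv, mul_right_comm, mul_inv_cancel, one_mul] at h1
    have h2 := mem_E1 he h1.symm
    exact key 0 0 (h2.trans nn_zero.symm)
  · obtain ⟨k, hk⟩ := mem_E2 he
    exact key _ _ hk

end Data

section Elliptic

variable {H V : Type*} [Group H] [MulAction H V] {T : SimpleGraph V}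

theorem TreeAct.elliptic_of_pow (h : TreeAct H T) {g : H} {n : ℕ} (hn : 0 < n) (hg : g ^ n = 1) :
    ∃ v : V, g • v = v := by
  by_contra hcon
  push Not at hcon
  obtain ⟨L, l, hax⟩ := h.exists_axis hcon
  have h1 := hax.smul_zpow n 0
  rw [zpow_natCast, hg, one_smul] at h1
  have h2 := hax.line.injective h.isTree h1
  have h3 := hax.pos
  have h4 : (n : ℤ) * l ≠ 0 := by positivity
  omega

end Elliptic

section Main

variable {G : Type u} [Group G]

/-- An injective endomorphism of a group which extends along all embeddings is inner. -/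
theorem inner_of_injective [Nontrivial G] (α : G →* G) (hα : Injective α)
    (hext : ∀ (H : Type u) [Group H] (f : G →* H), Injective f →
      ∃ β : H →* H, ∀ g, β (f g) = f (α g)) :
    ∃ g₁, ∀ x, α x = g₁ * x * g₁⁻¹ := by
  classical
  obtain ⟨g₀, hg₀⟩ := exists_ne (1 : G)
  obtain ⟨R, hR1, hR2⟩ := exists_rigid G 1
  obtain ⟨F, _, hF, hGF, hsimple, hperf, c, hc⟩ := exists_gadget G
  let M := Matrix.ProjectiveSpecialLinearGroup (Fin 2) F
  obtain ⟨H, _, jL, j, hs⟩ := exists_star (EE g₀ R) (c.comp th0) (edge_inj c hc g₀ R)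
  have hT := hs.treeAct
  have hcount : ∀ u v, (stree jL j).Adj u v → {g : H | g • u = u ∧ g • v = v}.Countable :=
    fun u v huv => hs.countable_edge (edge_countable g₀ R) huv
  obtain ⟨β, hβ⟩ := hext H (jL.comp SemidirectProduct.inr)
    (hs.injL.comp SemidirectProduct.inr_injective)
  have hβ' : ∀ g, β (jL (SemidirectProduct.inr g)) = jL (SemidirectProduct.inr (α g)) := hβ
  have hfixL : ∀ l, jL l • vL jL j 1 = vL jL j 1 := by
    intro l
    rw [smul_vL, eq_comm, vL_eq, inv_one, one_mul, mul_one]
    exact ⟨l, rfl⟩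
  have hrange : ∀ h : H, h • vL jL j 1 = vL jL j 1 → h ∈ jL.range := by
    intro h hh
    rw [smul_vL, eq_comm, vL_eq, inv_one, one_mul, mul_one] at hh
    exact hh
  -- the vertex fixed by the image of a gadget
  have hA : ∀ i, (∃ m, β (j i m) ≠ 1) → (∀ m, β (j i m) = 1 → m = 1) ∧
      ∃ i' g, ∀ m, β (j i m) • vM jL j i' g = vM jL j i' g := by
    intro i ⟨m₀, hm₀⟩
    have hinj : Injective (β.comp (j i)) := by
      rw [← MonoidHom.ker_eq_bot_iff]
      rcases IsSimpleGroup.eq_bot_or_eq_top_of_normal (β.comp (j i)).ker inferInstance with h | h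
      · exact h
      · exfalso
        apply hm₀
        have : m₀ ∈ (β.comp (j i)).ker := by rw [h]; trivial
        exact this
    refine ⟨fun m hm => hinj (hm.trans (map_one _).symm), ?_⟩
    obtain ⟨v, hv⟩ := hT.psl_fix (β.comp (j i)) hinj hF hcount
    rcases vertex_cases v with ⟨g, rfl⟩ | ⟨i', g, rfl⟩
    · exfalso
      have h1 : ∀ m, g⁻¹ * β (j i m) * g ∈ jL.range := by
        intro m
        have := hv m
        rw [smul_vL, eq_comm, vL_eq] at this
        rw [mul_assoc]
        exact this
      let θ : M →* jL.range :=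
        { toFun := fun m => ⟨g⁻¹ * β (j i m) * g, h1 m⟩
          map_one' := by
            apply Subtype.ext
            simp
          map_mul' := fun a b => by
            apply Subtype.ext
            show g⁻¹ * β (j i (a * b)) * g = (g⁻¹ * β (j i a) * g) * (g⁻¹ * β (j i b) * g)
            rw [map_mul, map_mul]
            group }
      let ι := MonoidHom.ofInjective hs.injL
      have h2 := hom_trivial (G := G) hsimple hperf (lt_of_lt_of_le hGF (card_le_psl F))
        (SemidirectProduct.rightHom : LL G (ZMod 289) →* G) (by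
          intro x y hx hy
          have hx' : x = SemidirectProduct.inl x.left := by
            apply SemidirectProduct.ext
            · rfl
            · exact hx
          have hy' : y = SemidirectProduct.inl y.left := by
            apply SemidirectProduct.ext
            · rfl
            · exact hy
          rw [hx', hy', ← map_mul, ← map_mul, mul_comm]) (ι.symm.toMonoidHom.comp θ) m₀
      have h3 : θ m₀ = 1 := ι.symm.injective (h2.trans (map_one _).symm)
      have h4 : g⁻¹ * β (j i m₀) * g = 1 := congrArg Subtype.val h3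
      apply hm₀
      have h5 : β (j i m₀) = g * (g⁻¹ * β (j i m₀) * g) * g⁻¹ := by group
      rw [h5, h4]
      group
    · exact ⟨i', g, hv⟩
  -- elements of `α(G)` fix only the base vertex
  have hC : ∀ g, g ≠ 1 → ∀ w, jL (SemidirectProduct.inr g) • w = w → w = vL jL j 1 := by
    intro g hg w hw
    by_contra hne
    obtain ⟨i, l, e, he, h1⟩ := hs.conj_edge (hfixL _) hne hw
    exact hg (edge_G g₀ R i he (hs.injL h1))
  -- edge elements with image in `L`
  have hB : ∀ i, ∀ e ∈ EE g₀ R i, β (jL e) ≠ 1 → β (jL e) • vL jL j 1 = vL jL j 1 →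
      ∃ i' l e', e' ∈ EE g₀ R i' ∧ β (jL e) = jL (l * e' * l⁻¹) := by
    intro i e he hne hfix
    have h1 : jL e = j i ((c.comp th0) e) := (hs.compat i e he).symm
    obtain ⟨_, i', g, h2⟩ := hA i ⟨_, by rw [← h1]; exact hne⟩
    have h3 := h2 ((c.comp th0) e)
    rw [← h1] at h3
    exact hs.conj_edge hfix (w := vM jL j i' g) (fun h => Sum.inr_ne_inl h) h3
  -- the first gadget is not killed
  have hD : ∃ m, β (j none m) ≠ 1 := by
    by_contra hcon
    push Not at hcon
    have h1 : β (jL (nn 1 0)) = 1 := by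
      have : (nn 1 0 : LL G (ZMod 289)) ∈ EE g₀ R none := ⟨1, 0, by rw [Finsupp.single_zero]⟩
      rw [← hs.compat none _ this]
      exact hcon _
    have hmem : (nn 1 0 * SemidirectProduct.inr g₀ : LL G (ZMod 289)) ∈ EE g₀ R (some none) :=
      Subgroup.mem_zpowers _
    have h2 : β (jL (nn 1 0 * SemidirectProduct.inr g₀)) =
        jL (SemidirectProduct.inr (α g₀)) := by
      rw [map_mul, map_mul, h1, one_mul, hβ']
    have hαg : α g₀ ≠ 1 := fun h => hg₀ (hα (h.trans (map_one α).symm))
    have h3 : jL (SemidirectProduct.inr (α g₀)) ≠ 1 := by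
      intro h
      have := hs.injL (h.trans (map_one jL).symm)
      exact hαg (SemidirectProduct.inr_injective (this.trans (map_one _).symm))
    have h4 := hs.compat (some none) _ hmem
    obtain ⟨_, i', g, h5⟩ := hA (some none) ⟨_, by rw [h4, h2]; exact h3⟩
    have h6 := h5 ((c.comp th0) (nn 1 0 * SemidirectProduct.inr g₀))
    rw [h4, h2] at h6
    exact Sum.inr_ne_inl (hC _ hαg _ h6)
  obtain ⟨hA1, i₁, x₁, hA2⟩ := hA none hD
  -- the generator
  let dl : G → LL G (ZMod 289) := fun x => nn 0 (Finsupp.single x 1)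
  have hdl : dl 1 ∈ EE g₀ R none := ⟨0, 1, rfl⟩
  set b : H := β (jL (dl 1)) with hb
  have hbj : b = β (j none ((c.comp th0) (dl 1))) := by rw [hs.compat none _ hdl]
  have hdlpow : ∀ x (k : ℕ), dl x ^ k = nn 0 (Finsupp.single x (k : ZMod 289)) := by
    intro x k
    show (nn 0 (Finsupp.single x 1)) ^ k = _
    rw [nn_pow, Finsupp.smul_single, smul_zero, nsmul_eq_mul, mul_one]
  have hbpow : ∀ k : ℕ, b ^ k = 1 → (k : ZMod 289) = 0 := by
    intro k hk
    rw [hb, ← map_pow, ← map_pow] at hk
    have h1 : dl 1 ^ k ∈ EE g₀ R none := Subgroup.pow_mem _ hdl k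
    rw [← hs.compat none _ h1] at hk
    have h2 := edge_inj c hc g₀ R none _ h1 (hA1 _ hk)
    rw [hdlpow, ← nn_zero] at h2
    have h3 := (nn_inj h2).2
    exact Finsupp.single_eq_zero.1 h3
  have hb289 : b ^ 289 = 1 := by
    rw [hb, ← map_pow, ← map_pow, hdlpow]
    have : ((289 : ℕ) : ZMod 289) = 0 := ZMod.natCast_self 289
    rw [this, Finsupp.single_zero, nn_zero, map_one, map_one]
  have hbfix : b • vM jL j i₁ x₁ = vM jL j i₁ x₁ := by rw [hbj]; exact hA2 _
  have hαg : α g₀ ≠ 1 := fun h => hg₀ (hα (h.trans (map_one α).symm))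
  -- conjugates of the generator
  have hdlconj : ∀ x, SemidirectProduct.inr x * dl 1 * (SemidirectProduct.inr x)⁻¹ = dl x := by
    intro x
    show SemidirectProduct.inr x * nn 0 (Finsupp.single 1 1) * (SemidirectProduct.inr x)⁻¹ = _
    rw [inr_conj, tr_single, mul_one]
  have hbconj : ∀ x, β (jL (dl x)) =
      jL (SemidirectProduct.inr (α x)) * b * (jL (SemidirectProduct.inr (α x)))⁻¹ := by
    intro x
    rw [← hdlconj x, map_mul, map_mul, map_mul, map_mul, map_inv, map_inv, hβ']
  set a : H := jL (SemidirectProduct.inr (α g₀)) with ha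
  set b' : H := a * b * a⁻¹ with hb'
  have hcomm : b * b' = b' * b := by
    rw [hb', ha, ← hbconj g₀, hb, ← map_mul, ← map_mul, ← map_mul, ← map_mul]
    congr 2
    show nn 0 _ * nn 0 _ = nn 0 _ * nn 0 _
    rw [nn_mul, nn_mul, add_comm (Finsupp.single (1 : G) (1 : ZMod 289))]
  have hb'289 : b' ^ 289 = 1 := by
    rw [hb', conj_pow, hb289]
    group
  have hbb : (b * b') ^ 289 = 1 := by
    rw [Commute.mul_pow hcomm, hb289, hb'289, one_mul]
  obtain ⟨z, hz1, hz2⟩ := hT.common_fixed {b} b'
    ⟨vM jL j i₁ x₁, fun y hy => by rw [Set.mem_singleton_iff] at hy; rw [hy]; exact hbfix⟩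
    (hT.elliptic_of_pow (by norm_num) hb'289) (by
      intro x hx
      rw [Set.mem_singleton_iff] at hx
      subst hx
      exact hT.elliptic_of_pow (by norm_num) hbb)
  have hbz : b • z = z := hz1 b rfl
  have hbz' : b • (a⁻¹ • z) = a⁻¹ • z := by
    have h1 : b = a⁻¹ * b' * a := by rw [hb']; group
    rw [h1, mul_smul, mul_smul, smul_inv_smul, hz2]
  have hav : a⁻¹ • vL jL j 1 = vL jL j 1 := by
    rw [inv_smul_eq_iff]
    exact (hfixL _).symm
  have haw : ∀ w, a⁻¹ • w = w → w = vL jL j 1 := by
    intro w hw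
    rw [inv_smul_eq_iff] at hw
    exact hC _ hαg w hw.symm
  have hbL : b • vL jL j 1 = vL jL j 1 :=
    hT.convex hbz hbz' (hT.midpoint hav haw z)
  have hb1 : b ≠ 1 := by
    intro h
    have := hbpow 1 (by rw [h, one_pow])
    exact absurd this (by decide)
  -- the image of the generator
  obtain ⟨g₁, k, hk17, hbval⟩ : ∃ (g₁ : G) (k : ZMod 289), 17 * k ≠ 0 ∧
      b = jL (nn 0 (Finsupp.single g₁ k)) := by
    obtain ⟨i', l, e', he', h1⟩ := hB none _ hdl hb1 hbL
    rw [← hb] at h1
    have hnu : nu e' = 1 := by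
      have h2 : (jL (l * e' * l⁻¹)) ^ 289 = 1 := by rw [← h1]; exact hb289
      rw [← map_pow] at h2
      have h3 := hs.injL (h2.trans (map_one jL).symm)
      have h4 := congrArg nu h3
      rw [map_pow, map_mul, map_mul, map_inv, mul_right_comm, mul_inv_cancel, one_mul,
        map_one] at h4
      have h5 := congrArg Multiplicative.toAdd h4
      apply Multiplicative.toAdd.injective
      rw [toAdd_pow, toAdd_one] at h5
      rw [toAdd_one]
      have : (289 : ℤ) * Multiplicative.toAdd (nu e') = 0 := by simpa using h5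
      omega
    rcases i' with _ | _ | t
    · obtain ⟨m, k, rfl⟩ := mem_E0 he'
      have hm : m = 0 := by
        rw [nu_nn] at hnu
        exact Multiplicative.ofAdd.injective hnu
      subst hm
      rw [conj_nn, tr_single] at h1
      refine ⟨_, k, ?_, h1⟩
      intro h17
      have h2 : b ^ 17 = 1 := by
        rw [h1, ← map_pow, nn_pow, Finsupp.smul_single, smul_zero, nsmul_eq_mul]
        push_cast
        rw [h17, Finsupp.single_zero, nn_zero, map_one]
      have := hbpow 17 h2
      exact absurd this (by decide)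
    · exfalso
      have h2 := mem_E1 he' hnu
      apply hb1
      rw [h1, h2]
      simp
    · exfalso
      obtain ⟨k, rfl⟩ := mem_E2 he'
      have h2 : b ^ 17 = 1 := by
        rw [h1, ← map_pow, conj_nn, nn_pow, tr_U4, smul_U4, smul_zero]
        have h3 : ∀ p q r s : G, U4 p q r s (((17 : ℕ) : ZMod 289) * k) = 0 := by
          intro p q r s
          ext w
          rw [U4_apply, Finsupp.zero_apply]
          have : (17 : ZMod 289) * 17 = 0 := by decide
          push_cast
          linear_combination (cnt p q r s w : ZMod 289) * k * this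
        rw [h3, nn_zero, map_one]
      have := hbpow 17 h2
      exact absurd this (by decide)
  -- images of the other elements
  have himg : ∀ x (n : ℕ), β (jL (nn 0 (Finsupp.single x (n : ZMod 289)))) =
      jL (nn 0 (Finsupp.single (α x * g₁) (n * k))) := by
    intro x n
    rw [← hdlpow, map_pow, map_pow, hbconj, hbval, ← map_inv, ← map_mul, ← map_mul, inr_conj,
      tr_single, ← map_pow, nn_pow, Finsupp.smul_single, smul_zero, nsmul_eq_mul]
  have himgU : ∀ x y z, β (jL (nn 0 (U4 1 x y z 1))) =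
      jL (nn 0 (U4 g₁ (α x * g₁) (α y * g₁) (α z * g₁) k)) := by
    intro x y z
    have h1 : (nn 0 (U4 1 x y z 1) : LL G (ZMod 289)) =
        nn 0 (Finsupp.single 1 ((17 : ℕ) : ZMod 289)) *
        nn 0 (Finsupp.single x ((34 : ℕ) : ZMod 289)) *
        nn 0 (Finsupp.single y ((68 : ℕ) : ZMod 289)) *
        nn 0 (Finsupp.single z ((136 : ℕ) : ZMod 289)) := by
      rw [nn_mul, nn_mul, nn_mul]
      unfold U4
      push_cast
      simp only [mul_one]
    rw [h1]
    simp only [map_mul, himg]
    rw [← map_mul, ← map_mul, ← map_mul, nn_mul, nn_mul, nn_mul]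
    unfold U4
    push_cast
    simp only [map_one, one_mul]
  -- the relation is preserved by the twisted endomorphism
  have hpres : ∀ x y z, R x y z →
      R (g₁⁻¹ * α x * g₁) (g₁⁻¹ * α y * g₁) (g₁⁻¹ * α z * g₁) := by
    intro x y z hR
    have hmem : (nn 0 (U4 1 x y z 1) : LL G (ZMod 289)) ∈ EE g₀ R (some (some ⟨(x, y, z), hR⟩)) :=
      Subgroup.mem_zpowers _
    have hne : β (jL (nn 0 (U4 1 x y z 1))) ≠ 1 := by
      rw [himgU]
      intro h
      have h1 := hs.injL (h.trans (map_one jL).symm)
      rw [← nn_zero] at h1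
      have h2 := DFunLike.congr_fun (nn_inj h1).2 g₁
      exact U4_ne hk17 (Or.inl rfl) h2
    have hfix : β (jL (nn 0 (U4 1 x y z 1))) • vL jL j 1 = vL jL j 1 := by
      rw [himgU]
      exact hfixL _
    obtain ⟨i', l, e', he', h1⟩ := hB _ _ hmem hne hfix
    rw [himgU] at h1
    have h2 := hs.injL h1
    have hnu : nu e' = 1 := by
      have h3 := congrArg nu h2
      rw [nu_nn, map_mul, map_mul, map_inv, mul_right_comm, mul_inv_cancel, one_mul] at h3
      exact h3.symm
    rcases i' with _ | _ | t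
    · exfalso
      obtain ⟨m, c', rfl⟩ := mem_E0 he'
      rw [conj_nn, tr_single] at h2
      have h3 := (nn_inj h2).2
      have hval : ∀ w, g₁ = w ∨ α x * g₁ = w ∨ α y * g₁ = w ∨ α z * g₁ = w →
          l.right * 1 = w := by
        intro w hw
        by_contra hne
        have h4 := DFunLike.congr_fun h3 w
        rw [Finsupp.single_apply, if_neg hne] at h4
        exact U4_ne hk17 hw h4
      have e0 := hval g₁ (Or.inl rfl)
      have e1 := hval (α x * g₁) (Or.inr (Or.inl rfl))
      have e2 := hval (α y * g₁) (Or.inr (Or.inr (Or.inl rfl)))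
      have e3 := hval (α z * g₁) (Or.inr (Or.inr (Or.inr rfl)))
      have hone : ∀ x, l.right * 1 = α x * g₁ → x = 1 := by
        intro x hx
        rw [e0] at hx
        have : α x = 1 := by
          have h5 : α x * g₁ = 1 * g₁ := by rw [one_mul]; exact hx.symm
          exact mul_right_cancel h5
        exact hα (this.trans (map_one α).symm)
      exact hR1 x y z hR ⟨hone x e1, hone y e2, hone z e3⟩
    · exfalso
      apply hne
      rw [himgU, h1, mem_E1 he' hnu]
      simp
    · obtain ⟨k', rfl⟩ := mem_E2 he'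
      rw [conj_nn, tr_U4] at h2
      obtain ⟨e0, e1, e2, e3⟩ := U4_inj hk17 (nn_inj h2).2
      have hR' := t.2
      have hgl : l.right = g₁ := by rw [e0, mul_one]
      have f1 : t.1.1 = g₁⁻¹ * α x * g₁ := by rw [mul_assoc, e1, hgl]; group
      have f2 : t.1.2.1 = g₁⁻¹ * α y * g₁ := by rw [mul_assoc, e2, hgl]; group
      have f3 : t.1.2.2 = g₁⁻¹ * α z * g₁ := by rw [mul_assoc, e3, hgl]; group
      rw [f1, f2, f3] at hR'
      exact hR'
  have hfin := hR2 (fun x => g₁⁻¹ * α x * g₁) (by
    intro x y hxy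
    have h1 : α x = α y := mul_left_cancel (mul_right_cancel hxy)
    exact hα h1) hpres
  refine ⟨g₁, fun x => ?_⟩
  have h1 : g₁⁻¹ * α x * g₁ = x := hfin x
  have h2 : α x = g₁ * (g₁⁻¹ * α x * g₁) * g₁⁻¹ := by group
  rw [h1] at h2
  exact h2

end Main

end Q27.EX
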