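import Pool.Agent.Q27.EX.Tree

/-!
# `PSL(2, F)` acting on trees with countable edge stabilizers
-/

set_option autoImplicit false

namespace Q27.EX

open Matrix

section Mats

variable {F : Type*} [Field F]

theorem sl_ext {A B : SpecialLinearGroup (Fin 2) F}
    (h : (A : Matrix (Fin 2) (Fin 2) F) = (B : Matrix (Fin 2) (Fin 2) F)) : A = B :=
  Subtype.ext h

/-- upper unipotent matrices -/
def upv (x : F) : SpecialLinearGroup (Fin 2) F := ⟨!![1, x; 0, 1], by simp [Matrix.det_fin_two_of]⟩

/-- lower unipotent matrices -/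
def lov (x : F) : SpecialLinearGroup (Fin 2) F := ⟨!![1, 0; x, 1], by simp [Matrix.det_fin_two_of]⟩

/-- diagonal matrices -/
def torv (x : Fˣ) : SpecialLinearGroup (Fin 2) F :=
  ⟨!![(x : F), 0; 0, ((x⁻¹ : Fˣ) : F)], by simp [Matrix.det_fin_two_of]⟩

theorem upv_val (x : F) : (upv x : Matrix (Fin 2) (Fin 2) F) = !![1, x; 0, 1] := rfl

theorem lov_val (x : F) : (lov x : Matrix (Fin 2) (Fin 2) F) = !![1, 0; x, 1] := rfl

theorem torv_val (x : Fˣ) : (torv x : Matrix (Fin 2) (Fin 2) F) =
    !![(x : F), 0; 0, ((x⁻¹ : Fˣ) : F)] := rfl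

theorem val_mul (A B : SpecialLinearGroup (Fin 2) F) :
    ((A * B : SpecialLinearGroup (Fin 2) F) : Matrix (Fin 2) (Fin 2) F) =
      (A : Matrix (Fin 2) (Fin 2) F) * (B : Matrix (Fin 2) (Fin 2) F) := rfl

theorem upv_mul (x y : F) : upv x * upv y = upv (x + y) := by
  apply sl_ext
  rw [val_mul, upv_val, upv_val, upv_val, Matrix.mul_fin_two]
  simp [add_comm]

theorem lov_mul (x y : F) : lov x * lov y = lov (x + y) := by
  apply sl_ext
  rw [val_mul, lov_val, lov_val, lov_val, Matrix.mul_fin_two]
  simp

theorem torv_mul (x y : Fˣ) : torv x * torv y = torv (x * y) := by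
  apply sl_ext
  rw [val_mul, torv_val, torv_val, torv_val, Matrix.mul_fin_two]
  simp [mul_comm]

theorem upv_zero : upv (0 : F) = 1 := by
  apply sl_ext
  rw [upv_val]
  exact Matrix.one_fin_two.symm

theorem lov_zero : lov (0 : F) = 1 := by
  apply sl_ext
  rw [lov_val]
  exact Matrix.one_fin_two.symm

theorem torv_one : torv (1 : Fˣ) = 1 := by
  apply sl_ext
  rw [torv_val]
  simpa using Matrix.one_fin_two.symm

/-- upper unipotent matrices -/
def up : Multiplicative F →* SpecialLinearGroup (Fin 2) F where
  toFun x := upv x.toAdd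
  map_one' := upv_zero
  map_mul' x y := (upv_mul x.toAdd y.toAdd).symm

/-- lower unipotent matrices -/
def lo : Multiplicative F →* SpecialLinearGroup (Fin 2) F where
  toFun x := lov x.toAdd
  map_one' := lov_zero
  map_mul' x y := (lov_mul x.toAdd y.toAdd).symm

/-- diagonal matrices -/
def tor : Fˣ →* SpecialLinearGroup (Fin 2) F where
  toFun x := torv x
  map_one' := torv_one
  map_mul' x y := (torv_mul x y).symm

theorem up_val (x : F) : ((up (Multiplicative.ofAdd x) : SpecialLinearGroup (Fin 2) F) :
    Matrix (Fin 2) (Fin 2) F) = !![1, x; 0, 1] := rfl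

theorem lo_val (x : F) : ((lo (Multiplicative.ofAdd x) : SpecialLinearGroup (Fin 2) F) :
    Matrix (Fin 2) (Fin 2) F) = !![1, 0; x, 1] := rfl

theorem tor_val (x : Fˣ) : ((tor x : SpecialLinearGroup (Fin 2) F) :
    Matrix (Fin 2) (Fin 2) F) = !![(x : F), 0; 0, ((x⁻¹ : Fˣ) : F)] := rfl

theorem tor_up (x : Fˣ) (a : F) : (up (Multiplicative.ofAdd a) : SpecialLinearGroup (Fin 2) F) *
    tor x = tor x * up (Multiplicative.ofAdd (((x⁻¹ : Fˣ) : F) ^ 2 * a)) := by
  apply sl_ext
  rw [val_mul, val_mul, up_val, up_val, tor_val,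
    Matrix.mul_fin_two, Matrix.mul_fin_two]
  have hx : (x : F) ≠ 0 := x.ne_zero
  have e : a * (x : F)⁻¹ = (x : F) * ((((x⁻¹ : Fˣ) : F)) ^ 2 * a) := by
    rw [Units.val_inv_eq_inv_val]
    field_simp
  simp only [Units.val_inv_eq_inv_val] at e
  simp [e]

theorem tor_lo (x : Fˣ) (a : F) : (lo (Multiplicative.ofAdd a) : SpecialLinearGroup (Fin 2) F) *
    tor x = tor x * lo (Multiplicative.ofAdd ((x : F) ^ 2 * a)) := by
  apply sl_ext
  rw [val_mul, val_mul, lo_val, lo_val, tor_val,
    Matrix.mul_fin_two, Matrix.mul_fin_two]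
  have hx : (x : F) ≠ 0 := x.ne_zero
  simp only [Units.val_inv_eq_inv_val]
  congr 1
  field_simp
  simp

theorem gen_up_lo (P : Subgroup (SpecialLinearGroup (Fin 2) F))
    (h1 : ∀ a : F, up (Multiplicative.ofAdd a) ∈ P) (h2 : ∀ a : F, lo (Multiplicative.ofAdd a) ∈ P) :
    P = ⊤ := by
  have key : ∀ g : SpecialLinearGroup (Fin 2) F, g.1 1 0 ≠ 0 → g ∈ P := by
    intro g hg
    have hdet := g.2
    rw [Matrix.det_fin_two] at hdet
    have e : g = up (Multiplicative.ofAdd ((g.1 0 0 - 1) / g.1 1 0)) *
        lo (Multiplicative.ofAdd (g.1 1 0)) *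
        up (Multiplicative.ofAdd ((g.1 1 1 - 1) / g.1 1 0)) := by
      apply sl_ext
      rw [val_mul, val_mul, up_val, up_val, lo_val,
        Matrix.mul_fin_two, Matrix.mul_fin_two]
      ext i k
      fin_cases i <;> fin_cases k
      · simp [hg]
      · simp
        field_simp
        linear_combination -hdet
      · simp
      · simp
        field_simp
        ring
    rw [e]
    exact P.mul_mem (P.mul_mem (h1 _) (h2 _)) (h1 _)
  rw [eq_top_iff]
  intro g _
  by_cases hg : g.1 1 0 = 0
  · have h3 : g * lo (Multiplicative.ofAdd 1) ∈ P := by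
      apply key
      have : (g * lo (Multiplicative.ofAdd 1)).1 1 0 = g.1 1 1 := by
        rw [val_mul, lo_val, Matrix.mul_apply, Fin.sum_univ_two]
        simp [hg]
      rw [this]
      intro h4
      have hdet := g.2
      rw [Matrix.det_fin_two, hg, h4] at hdet
      simp at hdet
    have h4 := P.mul_mem h3 (P.inv_mem (h2 1))
    rwa [mul_inv_cancel_right] at h4
  · exact key g hg

theorem up_center {a : F} (h : (up (Multiplicative.ofAdd a) : SpecialLinearGroup (Fin 2) F) ∈
    Subgroup.center _) : a = 0 := by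
  have h1 := Subgroup.mem_center_iff.1 h (lo (Multiplicative.ofAdd 1))
  have h2 := congrArg (fun g : SpecialLinearGroup (Fin 2) F => g.1 0 0) h1
  simp only [val_mul, up_val, lo_val, Matrix.mul_fin_two] at h2
  simpa using h2

theorem lo_center {a : F} (h : (lo (Multiplicative.ofAdd a) : SpecialLinearGroup (Fin 2) F) ∈
    Subgroup.center _) : a = 0 := by
  have h1 := Subgroup.mem_center_iff.1 h (up (Multiplicative.ofAdd 1))
  have h2 := congrArg (fun g : SpecialLinearGroup (Fin 2) F => g.1 0 0) h1
  simp only [val_mul, up_val, lo_val, Matrix.mul_fin_two] at h2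
  simpa using h2

theorem tor_center {x : Fˣ} (h : (tor x : SpecialLinearGroup (Fin 2) F) ∈
    Subgroup.center _) : x ^ 2 = 1 := by
  have h1 := Subgroup.mem_center_iff.1 h (up (Multiplicative.ofAdd 1))
  have h2 := congrArg (fun g : SpecialLinearGroup (Fin 2) F => g.1 0 1) h1
  simp only [val_mul, up_val, tor_val, Matrix.mul_fin_two] at h2
  simp at h2
  have hx : (x : F) ≠ 0 := x.ne_zero
  apply Units.ext
  rw [Units.val_pow_eq_pow_val, Units.val_one]
  field_simp at h2
  exact h2.symm

end Mats

section Action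

variable {F : Type*} [Field F]

/-- the projection -/
abbrev pr (F : Type*) [Field F] : SpecialLinearGroup (Fin 2) F →*
    ProjectiveSpecialLinearGroup (Fin 2) F := QuotientGroup.mk' _

theorem pr_eq_one {g : SpecialLinearGroup (Fin 2) F} (h : pr F g = 1) :
    g ∈ Subgroup.center (SpecialLinearGroup (Fin 2) F) := (QuotientGroup.eq_one_iff g).1 h

theorem pr_up_injective : Function.Injective ((pr F).comp up) := by
  rw [injective_iff_map_eq_one]
  intro a ha
  exact up_center (a := Multiplicative.toAdd a) (pr_eq_one ha)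

theorem pr_lo_injective : Function.Injective ((pr F).comp lo) := by
  rw [injective_iff_map_eq_one]
  intro a ha
  exact lo_center (a := Multiplicative.toAdd a) (pr_eq_one ha)

/-- `PSL(2, F)` for an uncountable field `F` fixes a vertex of every tree on which it acts
with countable edge stabilizers. -/
theorem TreeAct.psl_fix {G V : Type*} [Group G] [MulAction G V] {T : SimpleGraph V}
    (h : TreeAct G T) (θ : ProjectiveSpecialLinearGroup (Fin 2) F →* G)
    (hθ : Function.Injective θ) (hF : Uncountable F)
    (hE : ∀ u v, T.Adj u v → {g : G | g • u = u ∧ g • v = v}.Countable) :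
    ∃ v : V, ∀ m, θ m • v = v := by
  classical
  -- subgroups isomorphic to the additive group of the field
  have hsub : ∀ α : Multiplicative F →* SpecialLinearGroup (Fin 2) F,
      Function.Injective ((pr F).comp α) →
      ∃ p : V, (∀ x, θ (pr F (α x)) • p = p) ∧
        ∀ q, (∀ x, θ (pr F (α x)) • q = q) → q = p := by
    intro α hα
    have hinj : Function.Injective ((θ.comp (pr F)).comp α) := hθ.comp hα
    have hc : ∀ u v, T.Adj u v → {x : Multiplicative F | ((θ.comp (pr F)).comp α) x • u = u ∧
        ((θ.comp (pr F)).comp α) x • v = v}.Countable := by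
      intro u v huv
      exact (hE u v huv).preimage hinj
    have hD : Uncountable (Multiplicative F) := hF
    obtain ⟨p, hp⟩ := h.big_abelian ((θ.comp (pr F)).comp α) hD hc
    refine ⟨p, hp, fun q hq => ?_⟩
    by_contra hne
    obtain ⟨r, hr1, hr2⟩ := h.fix_edge (Ne.symm hne)
    have h1 : (Set.univ : Set (Multiplicative F)).Countable := by
      refine (hc p r hr1).mono fun x _ => ?_
      exact ⟨hp x, hr2 _ (hp x) (hq x)⟩
    exact not_countable_iff.2 hD (Set.countable_univ_iff.1 h1)
  obtain ⟨p, hp, hpu⟩ := hsub up pr_up_injective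
  obtain ⟨q, hq, hqu⟩ := hsub lo pr_lo_injective
  have hpt : ∀ x : Fˣ, θ (pr F (tor x)) • p = p := by
    intro x
    apply hpu
    intro a
    rw [← mul_smul, ← map_mul, ← map_mul]
    have := tor_up x a.toAdd
    rw [ofAdd_toAdd] at this
    rw [this, map_mul, map_mul, mul_smul, hp]
  have hqt : ∀ x : Fˣ, θ (pr F (tor x)) • q = q := by
    intro x
    apply hqu
    intro a
    rw [← mul_smul, ← map_mul, ← map_mul]
    have := tor_lo x a.toAdd
    rw [ofAdd_toAdd] at this
    rw [this, map_mul, map_mul, mul_smul, hq]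
  have hpq : p = q := by
    by_contra hne
    obtain ⟨r, hr1, hr2⟩ := h.fix_edge hne
    have h1 : (Set.univ : Set Fˣ).Countable := by
      have h2 : (Set.univ : Set Fˣ) ⊆ ⋃ g ∈ {g : G | g • p = p ∧ g • r = r},
          {x : Fˣ | θ (pr F (tor x)) = g} := by
        intro x _
        simp only [Set.mem_iUnion]
        exact ⟨θ (pr F (tor x)), ⟨hpt x, hr2 _ (hpt x) (hqt x)⟩, rfl⟩
      refine (Set.Countable.biUnion (hE _ _ hr1) fun g _ => ?_).mono h2
      by_cases hne : ∃ x : Fˣ, θ (pr F (tor x)) = g
      · obtain ⟨x, hx⟩ := hne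
        refine ((Set.finite_singleton x).union (Set.finite_singleton (-x))).countable.mono ?_
        intro y hy
        have h3 : pr F (tor (x⁻¹ * y)) = 1 := by
          apply hθ
          rw [map_one, map_mul, map_mul, map_mul, show θ (pr F (tor y)) = g from hy, map_inv,
            map_inv, map_inv, hx, inv_mul_cancel]
        have h4 := tor_center (pr_eq_one h3)
        have h5 : (((x⁻¹ * y : Fˣ) : F)) ^ 2 = 1 := by
          rw [← Units.val_pow_eq_pow_val, h4, Units.val_one]
        rcases sq_eq_one_iff.1 h5 with h6 | h6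
        · left
          rw [Set.mem_singleton_iff]
          have : x⁻¹ * y = 1 := Units.ext h6
          rw [inv_mul_eq_one] at this
          exact this.symm
        · right
          rw [Set.mem_singleton_iff]
          have : x⁻¹ * y = -1 := Units.ext h6
          rw [inv_mul_eq_iff_eq_mul] at this
          rw [this, mul_neg_one]
      · have : {x : Fˣ | θ (pr F (tor x)) = g} = (∅ : Set Fˣ) := by
          ext x
          simp only [Set.mem_ofPred_eq, Set.mem_empty_iff_false, iff_false]
          exact fun hx => hne ⟨x, hx⟩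
        rw [this]
        exact Set.countable_empty
    have h2 : Countable Fˣ := Set.countable_univ_iff.1 h1
    have h3 : (Set.univ : Set F) ⊆ {0} ∪ Set.range (fun x : Fˣ => (x : F)) := by
      intro x _
      by_cases hx : x = 0
      · left; exact hx
      · right; exact ⟨Units.mk0 x hx, rfl⟩
    have h4 : (Set.univ : Set F).Countable :=
      ((Set.countable_singleton 0).union (Set.countable_range _)).mono h3
    exact not_countable_iff.2 hF (Set.countable_univ_iff.1 h4)
  subst hpq
  refine ⟨p, fun m => ?_⟩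
  obtain ⟨g, rfl⟩ := QuotientGroup.mk'_surjective _ m
  let P : Subgroup (SpecialLinearGroup (Fin 2) F) :=
    { carrier := {g | θ (pr F g) • p = p}
      one_mem' := by simp
      mul_mem' := by
        intro a b ha hb
        show θ (pr F (a * b)) • p = p
        rw [map_mul, map_mul, mul_smul, hb, ha]
      inv_mem' := by
        intro a ha
        show θ (pr F a⁻¹) • p = p
        rw [map_inv, map_inv, inv_smul_eq_iff]
        exact ha.symm }
  have hP : P = ⊤ := gen_up_lo P (fun a => hp _) (fun a => hq _)
  have : g ∈ P := by rw [hP]; trivial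
  exact this

end Action

end Q27.EX
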