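import Pool.Agent.Q27.EX.Tree

/-!
# Star amalgams

`L` is a group with subgroups `E i`, `Θ : L →* M` is a homomorphism which is injective on every
`E i`. The star amalgam is generated by `L` and copies `M i` of `M`, with `e ∈ E i` identified with
`Θ e` in the copy `M i`. It acts on a tree.
-/

set_option autoImplicit false

universe u

namespace Q27.EX

open Monoid

section Constr

variable (L M : Type u) [Group L] [Group M]

/-- the two factors -/
def Fam : Bool → Type u
  | false => L
  | true => M

instance famGroup : ∀ b, Group (Fam L M b)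
  | false => inferInstanceAs (Group L)
  | true => inferInstanceAs (Group M)

variable {L M}

/-- the two maps -/
def fam (E : Subgroup L) (Θ : L →* M) : ∀ b, E →* Fam L M b
  | false => E.subtype
  | true => Θ.comp E.subtype

/-- The star amalgam and its properties. -/
structure IsStar {I : Type u} (E : I → Subgroup L) (Θ : L →* M) {H : Type u} [Group H]
    (jL : L →* H) (j : I → M →* H) : Prop where
  injL : Function.Injective jL
  inj : ∀ i, Function.Injective (j i)
  compat : ∀ i, ∀ e ∈ E i, j i (Θ e) = jL e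
  gen : ∀ P : Subgroup H, (∀ l, jL l ∈ P) → (∀ i m, j i m ∈ P) → P = ⊤
  lift : ∀ {K : Type u} [Group K] (f : L →* K) (g : I → M →* K),
    (∀ i, ∀ e ∈ E i, g i (Θ e) = f e) →
    ∃ F : H →* K, (∀ l, F (jL l) = f l) ∧ ∀ i m, F (j i m) = g i m

theorem exists_star {I : Type u} (E : I → Subgroup L) (Θ : L →* M)
    (hΘ : ∀ i, ∀ e ∈ E i, Θ e = 1 → e = 1) :
    ∃ (H : Type u) (_ : Group H) (jL : L →* H) (j : I → M →* H), IsStar E Θ jL j := by
  have hfam : ∀ i b, Function.Injective (fam (E i) Θ b) := by
    intro i b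
    cases b
    · exact Subtype.val_injective
    · rw [injective_iff_map_eq_one]
      intro e he
      exact Subtype.ext (hΘ i e.1 e.2 he)
  let φ : ∀ i, L →* PushoutI (fam (E i) Θ) := fun i => PushoutI.of (φ := fam (E i) Θ) false
  have hφ : ∀ i, Function.Injective (φ i) := fun i => PushoutI.of_injective (hfam i) false
  let o : ∀ i, M →* PushoutI (fam (E i) Θ) := fun i => PushoutI.of (φ := fam (E i) Θ) true
  have ho : ∀ i, Function.Injective (o i) := fun i => PushoutI.of_injective (hfam i) true
  refine ⟨PushoutI φ, inferInstance, PushoutI.base φ, fun i => (PushoutI.of i).comp (o i),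
    ⟨PushoutI.base_injective hφ, fun i => ?_, ?_, ?_, ?_⟩⟩
  · exact (PushoutI.of_injective hφ i).comp (ho i)
  · intro i e he
    rw [MonoidHom.comp_apply, ← PushoutI.of_apply_eq_base φ i]
    congr 1
    have h1 := PushoutI.of_apply_eq_base (fam (E i) Θ) true ⟨e, he⟩
    have h2 := PushoutI.of_apply_eq_base (fam (E i) Θ) false ⟨e, he⟩
    exact h1.trans h2.symm
  · intro P h1 h2
    rw [eq_top_iff]
    intro x _
    induction x using PushoutI.induction_on with
    | of i g =>
      induction g using PushoutI.induction_on with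
      | of b g =>
        cases b
        · have h3 := PushoutI.of_apply_eq_base φ i (g : L)
          have h4 := h1 (g : L)
          rw [← h3] at h4
          exact h4
        · exact h2 i g
      | base e =>
        have h4 := h1 e.1
        have h5 := PushoutI.of_apply_eq_base φ i e.1
        rw [← h5] at h4
        have h3 := PushoutI.of_apply_eq_base (fam (E i) Θ) false e
        rw [← h3]
        exact h4
      | mul x y hx hy =>
        rw [map_mul]
        exact P.mul_mem (hx trivial) (hy trivial)
    | base l => exact h1 l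
    | mul x y hx hy => exact P.mul_mem (hx trivial) (hy trivial)
  · intro K _ f g hfg
    let f1 : I → ∀ b, Fam L M b →* K := fun i b => match b with
        | false => f
        | true => g i
    have hf1 : ∀ i b, (f1 i b).comp (fam (E i) Θ b) = f.comp (E i).subtype := by
      intro i b
      cases b
      · rfl
      · ext e
        exact hfg i e.1 e.2
    let F1 : ∀ i, PushoutI (fam (E i) Θ) →* K := fun i =>
      PushoutI.lift (f1 i) (f.comp (E i).subtype) (hf1 i)
    have hF1 : ∀ i, (F1 i).comp (φ i) = f := by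
      intro i
      ext l
      exact PushoutI.lift_of (φ := fam (E i) Θ) (f1 i) (f.comp (E i).subtype) (hf1 i)
        (i := false) l
    refine ⟨PushoutI.lift F1 f hF1, ?_, ?_⟩
    · intro l
      exact PushoutI.lift_base F1 f hF1 l
    · intro i m
      rw [MonoidHom.comp_apply, PushoutI.lift_of]
      exact PushoutI.lift_of (φ := fam (E i) Θ) (f1 i) (f.comp (E i).subtype) (hf1 i)
        (i := true) m

end Constr

section TreeDef

variable {L M H : Type u} [Group L] [Group M] [Group H] {I : Type u}

/-- the vertices -/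
abbrev VV (jL : L →* H) (j : I → M →* H) : Type u := (H ⧸ jL.range) ⊕ (Σ i, H ⧸ (j i).range)

/-- the vertex `g L` -/
abbrev vL (jL : L →* H) (j : I → M →* H) (g : H) : VV jL j := Sum.inl (g : H ⧸ jL.range)

/-- the vertex `g M i` -/
abbrev vM (jL : L →* H) (j : I → M →* H) (i : I) (g : H) : VV jL j :=
  Sum.inr ⟨i, (g : H ⧸ (j i).range)⟩

variable {jL : L →* H} {j : I → M →* H}

theorem smul_vL (a g : H) : a • vL jL j g = vL jL j (a * g) := rfl

theorem smul_vM (i : I) (a g : H) : a • vM jL j i g = vM jL j i (a * g) := rfl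

theorem vL_eq {g g' : H} : vL jL j g = vL jL j g' ↔ g⁻¹ * g' ∈ jL.range := by
  unfold vL
  rw [Sum.inl.injEq, QuotientGroup.eq]

theorem vM_eq {i : I} {g g' : H} : vM jL j i g = vM jL j i g' ↔ g⁻¹ * g' ∈ (j i).range := by
  unfold vM
  rw [Sum.inr.injEq, Sigma.mk.injEq, heq_eq_eq, QuotientGroup.eq]
  simp

theorem vertex_cases (v : VV jL j) : (∃ g, v = vL jL j g) ∨ ∃ i g, v = vM jL j i g := by
  rcases v with v | ⟨i, v⟩
  · induction v using QuotientGroup.induction_on with
    | H g => exact Or.inl ⟨g, rfl⟩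
  · induction v using QuotientGroup.induction_on with
    | H g => exact Or.inr ⟨i, g, rfl⟩

/-- the tree of a star amalgam -/
def stree (jL : L →* H) (j : I → M →* H) : SimpleGraph (VV jL j) where
  Adj u v := ∃ (g : H) (i : I), (u = vL jL j g ∧ v = vM jL j i g) ∨
    (v = vL jL j g ∧ u = vM jL j i g)
  symm := ⟨fun _ _ ⟨g, i, h⟩ => ⟨g, i, h.symm⟩⟩
  loopless := ⟨fun v ⟨g, i, h⟩ => by
    rcases h with ⟨h1, h2⟩ | ⟨h1, h2⟩ <;> · rw [h1] at h2; exact Sum.inl_ne_inr h2⟩

theorem adj_LM (g : H) (i : I) : (stree jL j).Adj (vL jL j g) (vM jL j i g) :=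
  ⟨g, i, Or.inl ⟨rfl, rfl⟩⟩

variable {E : I → Subgroup L} {Θ : L →* M}

theorem IsStar.connected (h : IsStar E Θ jL j) : (stree jL j).Connected := by
  have key : ∀ g : H, (stree jL j).Reachable (vL jL j 1) (vL jL j g) := by
    have htr : ∀ (a : H) {u v : VV jL j}, (stree jL j).Reachable u v →
        (stree jL j).Reachable (a • u) (a • v) := by
      intro a u v huv
      let f : stree jL j →g stree jL j := ⟨fun v => a • v, by
        rintro u v ⟨g, i, h⟩
        refine ⟨a * g, i, ?_⟩
        rcases h with ⟨rfl, rfl⟩ | ⟨rfl, rfl⟩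
        · exact Or.inl ⟨rfl, rfl⟩
        · exact Or.inr ⟨rfl, rfl⟩⟩
      exact huv.map f
    let P : Subgroup H :=
      { carrier := {g | (stree jL j).Reachable (vL jL j 1) (vL jL j g)}
        one_mem' := SimpleGraph.Reachable.refl _
        mul_mem' := by
          intro a b ha hb
          have h1 := htr a hb
          rw [smul_vL, smul_vL, mul_one] at h1
          exact SimpleGraph.Reachable.trans ha h1
        inv_mem' := by
          intro a ha
          have h1 := htr a⁻¹ ha
          rw [smul_vL, smul_vL, mul_one, inv_mul_cancel] at h1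
          exact h1.symm }
    have hP : P = ⊤ := by
      apply h.gen P
      · intro l
        show (stree jL j).Reachable (vL jL j 1) (vL jL j (jL l))
        have : vL jL j 1 = vL jL j (jL l) := by
          rw [vL_eq]
          simp
        rw [this]
      · intro i m
        show (stree jL j).Reachable (vL jL j 1) (vL jL j (j i m))
        have h1 : vM jL j i 1 = vM jL j i (j i m) := by
          rw [vM_eq]
          simp
        have h2 := (adj_LM (jL := jL) (j := j) 1 i).reachable
        have h3 := (adj_LM (jL := jL) (j := j) (j i m) i).reachable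
        rw [h1] at h2
        exact h2.trans h3.symm
    intro g
    have : g ∈ P := by rw [hP]; trivial
    exact this
  have key2 : ∀ v : VV jL j, (stree jL j).Reachable (vL jL j 1) v := by
    intro v
    rcases vertex_cases v with ⟨g, rfl⟩ | ⟨i, g, rfl⟩
    · exact key g
    · exact (key g).trans (adj_LM g i).reachable
  have : Nonempty (VV jL j) := ⟨vL jL j 1⟩
  exact ⟨fun u v => (key2 u).symm.trans (key2 v)⟩

end TreeDef

section Potential

variable {L M H : Type u} [Group L] [Group M] [Group H] {I : Type u}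
variable {jL : L →* H} {j : I → M →* H}
variable {E : I → Subgroup L} {Θ : L →* M}

/-- the edges -/
abbrev XX (E : I → Subgroup L) (jL : L →* H) : Type u := Σ i, H ⧸ ((E i).map jL)

/-- the permutation action on functions on the edges -/
def rho (E : I → Subgroup L) (jL : L →* H) : H →* Equiv.Perm (XX E jL → ℤ) where
  toFun h :=
    { toFun := fun x e => x (h⁻¹ • e)
      invFun := fun x e => x (h • e)
      left_inv := fun x => by funext e; simp
      right_inv := fun x => by funext e; simp }
  map_one' := by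
    ext x e
    simp
  map_mul' a b := by
    ext x e
    simp [mul_smul]

theorem rho_apply (h : H) (x : XX E jL → ℤ) (e : XX E jL) : rho E jL h x e = x (h⁻¹ • e) := rfl

theorem rho_sub (h : H) (x y : XX E jL → ℤ) :
    rho E jL h (x - y) = rho E jL h x - rho E jL h y := rfl

theorem rho_zero (h : H) : rho E jL h 0 = 0 := rfl

open Classical in
/-- the edge `g E i` -/
noncomputable def ee (E : I → Subgroup L) (jL : L →* H) (i : I) (g : H) : XX E jL → ℤ :=
  Pi.single ⟨i, (g : H ⧸ ((E i).map jL))⟩ 1

theorem rho_ee (h g : H) (i : I) : rho E jL h (ee E jL i g) = ee E jL i (h * g) := by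
  classical
  funext e
  rw [rho_apply]
  unfold ee
  by_cases he : e = ⟨i, ((h * g : H) : H ⧸ ((E i).map jL))⟩
  · subst he
    rw [Pi.single_eq_same]
    have : h⁻¹ • (⟨i, ((h * g : H) : H ⧸ ((E i).map jL))⟩ : XX E jL) =
        ⟨i, (g : H ⧸ ((E i).map jL))⟩ := by
      rw [inv_smul_eq_iff]
      rfl
    rw [this, Pi.single_eq_same]
  · rw [Pi.single_eq_of_ne he, Pi.single_eq_of_ne]
    intro h1
    apply he
    rw [inv_smul_eq_iff] at h1
    rw [h1]
    rfl

theorem ee_eq {i : I} {g g' : H} (h : g⁻¹ * g' ∈ (E i).map jL) : ee E jL i g = ee E jL i g' := by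
  unfold ee
  rw [(QuotientGroup.eq (s := (E i).map jL)).2 h]

/-- the affine action -/
theorem IsStar.exists_affine (h : IsStar E Θ jL j) :
    ∃ Φ : H →* Equiv.Perm (XX E jL → ℤ), (∀ l, Φ (jL l) 0 = 0) ∧
      (∀ i m, Φ (j i m) (ee E jL i 1) = ee E jL i 1) ∧
      ∀ g x y, Φ g x - Φ g y = rho E jL g (x - y) := by
  let τ : I → Equiv.Perm (XX E jL → ℤ) := fun i => Equiv.addRight (ee E jL i 1)
  have hτ : ∀ i x, τ i x = x + ee E jL i 1 := fun i x => rfl
  have hτ' : ∀ i x, (τ i)⁻¹ x = x - ee E jL i 1 := fun i x => by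
    rw [Equiv.Perm.inv_eq_iff_eq, hτ]
    simp
  have hconj : ∀ i (g : H) x, MulAut.conj (τ i) (rho E jL g) x =
      rho E jL g x - rho E jL g (ee E jL i 1) + ee E jL i 1 := by
    intro i g x
    rw [MulAut.conj_apply, Equiv.Perm.mul_apply, Equiv.Perm.mul_apply, hτ', hτ, rho_sub]
  obtain ⟨Φ, h1, h2⟩ := h.lift ((rho E jL).comp jL)
    (fun i => ((MulAut.conj (τ i)).toMonoidHom.comp (rho E jL)).comp (j i)) (by
      intro i e he
      apply Equiv.ext
      intro x
      show MulAut.conj (τ i) (rho E jL (j i (Θ e))) x = rho E jL (jL e) x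
      rw [hconj, h.compat i e he, rho_ee, mul_one]
      rw [ee_eq (i := i) (g := jL e) (g' := 1)]
      · simp
      · rw [mul_one]
        exact Subgroup.inv_mem _ (Subgroup.mem_map_of_mem _ he))
  refine ⟨Φ, fun l => ?_, fun i m => ?_, ?_⟩
  · rw [h1]
    exact rho_zero _
  · rw [h2]
    show MulAut.conj (τ i) (rho E jL (j i m)) _ = _
    rw [hconj]
    simp
  · let P : Subgroup H :=
      { carrier := {g | ∀ x y, Φ g x - Φ g y = rho E jL g (x - y)}
        one_mem' := by intro x y; simp
        mul_mem' := by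
          intro a b ha hb x y
          rw [map_mul, map_mul, Equiv.Perm.mul_apply, Equiv.Perm.mul_apply, Equiv.Perm.mul_apply,
            ha, hb]
        inv_mem' := by
          intro a ha x y
          rw [map_inv, map_inv, Equiv.Perm.eq_inv_iff_eq, ← ha,
            show Φ a ((Φ a)⁻¹ x) = x from Equiv.apply_symm_apply _ _,
            show Φ a ((Φ a)⁻¹ y) = y from Equiv.apply_symm_apply _ _] }
    have hP : P = ⊤ := by
      apply h.gen P
      · intro l x y
        rw [h1]
        rfl
      · intro i m x y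
        rw [h2]
        show MulAut.conj (τ i) (rho E jL (j i m)) x - MulAut.conj (τ i) (rho E jL (j i m)) y = _
        rw [hconj, hconj, rho_sub]
        abel
    intro g
    have : g ∈ P := by rw [hP]; trivial
    exact this

/-- the potential -/
theorem IsStar.exists_pot (h : IsStar E Θ jL j) :
    ∃ pot : VV jL j → (XX E jL → ℤ), ∀ g i,
      pot (vM jL j i g) - pot (vL jL j g) = ee E jL i g := by
  obtain ⟨Φ, h1, h2, h3⟩ := h.exists_affine
  let pL : H ⧸ jL.range → (XX E jL → ℤ) := fun q => Quotient.liftOn' q (fun g => Φ g 0) (by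
    intro a b hab
    rw [QuotientGroup.leftRel_apply] at hab
    obtain ⟨l, hl⟩ := hab
    have : b = a * jL l := by rw [hl]; group
    show Φ a 0 = Φ b 0
    rw [this, map_mul, Equiv.Perm.mul_apply, h1])
  let pM : (Σ i, H ⧸ (j i).range) → (XX E jL → ℤ) := fun q =>
    Quotient.liftOn' q.2 (fun g => Φ g (ee E jL q.1 1)) (by
      intro a b hab
      rw [QuotientGroup.leftRel_apply] at hab
      obtain ⟨m, hm⟩ := hab
      have : b = a * j q.1 m := by rw [hm]; group
      show Φ a _ = Φ b _
      rw [this, map_mul, Equiv.Perm.mul_apply, h2])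
  refine ⟨Sum.elim pL pM, fun g i => ?_⟩
  show Φ g (ee E jL i 1) - Φ g 0 = _
  rw [h3, sub_zero, rho_ee, mul_one]

theorem IsStar.inter (h : IsStar E Θ jL j) {i : I} {g : H} (h1 : g ∈ jL.range)
    (h2 : g ∈ (j i).range) : g ∈ (E i).map jL := by
  classical
  obtain ⟨pot, hp⟩ := h.exists_pot
  have e1 := hp g i
  have e2 := hp 1 i
  have e3 : vL jL j 1 = vL jL j g := by rw [vL_eq]; simpa using h1
  have e4 : vM jL j i 1 = vM jL j i g := by rw [vM_eq]; simpa using h2
  rw [e3, e4, e1] at e2
  by_contra hcon
  have e5 := congrFun e2 ⟨i, (g : H ⧸ ((E i).map jL))⟩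
  unfold ee at e5
  rw [Pi.single_eq_same, Pi.single_eq_of_ne] at e5
  · exact one_ne_zero e5
  · intro e6
    rw [Sigma.mk.injEq, heq_eq_eq] at e6
    have e7 := (QuotientGroup.eq (s := (E i).map jL)).1 e6.2
    rw [mul_one] at e7
    exact hcon (by simpa using Subgroup.inv_mem _ e7)

theorem IsStar.acyclic (h : IsStar E Θ jL j) : (stree jL j).IsAcyclic := by
  classical
  obtain ⟨pot, hp⟩ := h.exists_pot
  rw [SimpleGraph.isAcyclic_iff_forall_adj_isBridge]
  have key : ∀ (g : H) (i : I),
      ¬ ((stree jL j).deleteEdges {s(vL jL j g, vM jL j i g)}).Reachable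
        (vL jL j g) (vM jL j i g) := by
    intro g i hr
    -- the coordinate of the potential at the edge
    let e : XX E jL := ⟨i, (g : H ⧸ ((E i).map jL))⟩
    have hstep : ∀ u v, ((stree jL j).deleteEdges {s(vL jL j g, vM jL j i g)}).Adj u v →
        pot u e = pot v e := by
      have main : ∀ (g' : H) (i' : I), s(vL jL j g', vM jL j i' g') ≠ s(vL jL j g, vM jL j i g) →
          pot (vL jL j g') e = pot (vM jL j i' g') e := by
        intro g' i' hne
        have h1 := congrFun (hp g' i') e
        rw [Pi.sub_apply] at h1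
        have h2 : ee E jL i' g' e = 0 := by
          unfold ee
          rw [Pi.single_eq_of_ne]
          intro he
          apply hne
          obtain ⟨rfl, he2⟩ := Sigma.mk.injEq .. ▸ he
          rw [heq_eq_eq] at he2
          have he3 := (QuotientGroup.eq (s := (E i).map jL)).1 he2
          have e1 : vL jL j g = vL jL j g' := by
            rw [vL_eq]
            obtain ⟨x, _, hx⟩ := he3
            exact ⟨x, hx⟩
          have e2 : vM jL j i g = vM jL j i g' := by
            rw [vM_eq]
            obtain ⟨x, hx1, hx⟩ := he3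
            exact ⟨Θ x, by rw [h.compat i x hx1]; exact hx⟩
          rw [e1, e2]
        rw [h2] at h1
        omega
      intro u v huv
      rw [SimpleGraph.deleteEdges_adj] at huv
      obtain ⟨⟨g', i', h'⟩, hne⟩ := huv
      rcases h' with ⟨rfl, rfl⟩ | ⟨rfl, rfl⟩
      · exact main g' i' (by simpa using hne)
      · exact (main g' i' (by
          intro h1
          apply hne
          rw [Set.mem_singleton_iff, Sym2.eq_swap]
          exact h1)).symm
    have hreach : ∀ u v, ((stree jL j).deleteEdges {s(vL jL j g, vM jL j i g)}).Reachable u v →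
        pot u e = pot v e := by
      rintro u v ⟨p⟩
      induction p with
      | nil => rfl
      | cons h1 _ ih => exact (hstep _ _ h1).trans ih
    have h1 := hreach _ _ hr
    have h2 := congrFun (hp g i) e
    rw [Pi.sub_apply, ← h1, sub_self] at h2
    unfold ee at h2
    rw [Pi.single_eq_same] at h2
    exact zero_ne_one h2
  rintro u v ⟨g, i, h'⟩
  rcases h' with ⟨rfl, rfl⟩ | ⟨rfl, rfl⟩
  · exact key g i
  · rw [Sym2.eq_swap]
    exact key g i

theorem IsStar.treeAct (h : IsStar E Θ jL j) : TreeAct H (stree jL j) where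
  isTree := ⟨h.connected, h.acyclic⟩
  adj := by
    rintro a u v ⟨g, i, h⟩
    refine ⟨a * g, i, ?_⟩
    rcases h with ⟨rfl, rfl⟩ | ⟨rfl, rfl⟩
    · exact Or.inl ⟨rfl, rfl⟩
    · exact Or.inr ⟨rfl, rfl⟩
  noInv := by
    rintro a u v ⟨g, i, h⟩ ⟨h1, h2⟩
    rcases h with ⟨rfl, rfl⟩ | ⟨rfl, rfl⟩
    · exact Sum.inl_ne_inr h1
    · exact Sum.inl_ne_inr h2

/-- An element of `L` with a second fixed vertex is conjugate into an edge group. -/
theorem IsStar.conj_edge (h : IsStar E Θ jL j) {g : H} (h1 : g • vL jL j 1 = vL jL j 1)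
    {w : VV jL j} (hw : w ≠ vL jL j 1) (h2 : g • w = w) :
    ∃ (i : I) (l e : L), e ∈ E i ∧ g = jL (l * e * l⁻¹) := by
  obtain ⟨r, hr1, hr2⟩ := h.treeAct.fix_edge (Ne.symm hw)
  have h3 := hr2 g h1 h2
  obtain ⟨x, i, hx⟩ := hr1
  rcases hx with ⟨hx1, rfl⟩ | ⟨_, hx1⟩
  · rw [vL_eq, inv_one, one_mul] at hx1
    obtain ⟨l, rfl⟩ := hx1
    rw [smul_vM, eq_comm, vM_eq] at h3
    rw [smul_vL, eq_comm, vL_eq, mul_one, inv_one, one_mul] at h1
    have h4 : (jL l)⁻¹ * (g * jL l) ∈ jL.range :=
      Subgroup.mul_mem _ (Subgroup.inv_mem _ ⟨l, rfl⟩) (Subgroup.mul_mem _ h1 ⟨l, rfl⟩)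
    obtain ⟨e, he, he2⟩ := h.inter h4 h3
    refine ⟨i, l, e, he, ?_⟩
    rw [map_mul, map_mul, he2, map_inv]
    group
  · exact absurd hx1 Sum.inl_ne_inr

/-- If the groups `E i` are countable then the edge stabilizers are countable. -/
theorem IsStar.countable_edge (h : IsStar E Θ jL j) (hE : ∀ i, Countable (E i)) {u v : VV jL j}
    (huv : (stree jL j).Adj u v) : {g : H | g • u = u ∧ g • v = v}.Countable := by
  have key : ∀ (x : H) (i : I),
      {g : H | g • vL jL j x = vL jL j x ∧ g • vM jL j i x = vM jL j i x}.Countable := by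
    intro x i
    have : Countable (E i) := hE i
    refine (Set.countable_range (fun e : E i => x * jL e.1 * x⁻¹)).mono ?_
    rintro g ⟨h1, h2⟩
    rw [smul_vL, eq_comm, vL_eq] at h1
    rw [smul_vM, eq_comm, vM_eq] at h2
    obtain ⟨e, he, he2⟩ := h.inter h1 h2
    refine ⟨⟨e, he⟩, ?_⟩
    show x * jL e * x⁻¹ = g
    rw [he2]
    group
  obtain ⟨x, i, hx⟩ := huv
  rcases hx with ⟨rfl, rfl⟩ | ⟨rfl, rfl⟩
  · exact key x i
  · refine (key x i).mono ?_
    rintro g ⟨h1, h2⟩
    exact ⟨h2, h1⟩

end Potential

end Q27.EX
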